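import Pool.Agent.Y746.CS.MVC
import Pool.Agent.Y746.OA.SM
import Pool.Agent.Y746.OA.Core

set_option autoImplicit false

/-! Products of shifted Dirichlet polynomials. -/

namespace Pool.Agent.Y746.CS

open MeasureTheory Finset Complex
open Pool.Agent.H306R2 Pool.Agent.Y746.OA

noncomputable section

/-- `n ↦ d_y(n) n^(-ic)` -/
def tw1 (y c : ℝ) : ArithmeticFunction ℂ :=
  ⟨fun n => (dv y n : ℂ) * (n:ℂ) ^ (-((c:ℂ) * I)), by simp [dv]⟩

lemma tw1_apply (y c : ℝ) (n : ℕ) : tw1 y c n = (dv y n : ℂ) * (n:ℂ) ^ (-((c:ℂ) * I)) := rfl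

/-- truncation -/
def trC (N : ℕ) (A : ArithmeticFunction ℂ) : ArithmeticFunction ℂ := ⟨fun n => if n ≤ N then A n else 0, by simp⟩

lemma trC_apply (N : ℕ) (A : ArithmeticFunction ℂ) (n : ℕ) : trC N A n = if n ≤ N then A n else 0 := rfl

lemma trC_vanish (N : ℕ) (A : ArithmeticFunction ℂ) : ∀ n : ℕ, N < n → trC N A n = 0 := by
  intro n hn
  rw [trC_apply, if_neg (by omega)]

lemma tw1_norm (y c : ℝ) (n : ℕ) : ‖tw1 y c n‖ = |dv y n| := by
  rw [tw1_apply]
  rcases Nat.eq_zero_or_pos n with h | h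
  · subst h; simp [dv]
  · rw [norm_mul, Complex.norm_real, Real.norm_eq_abs, Complex.norm_natCast_cpow_of_pos h]
    simp

lemma tw1_le {y : ℝ} {K : ℕ} (hy : |y| ≤ K) (c : ℝ) (n : ℕ) : ‖tw1 y c n‖ ≤ dv K n := by
  rw [tw1_norm]
  exact dv_abs_le hy n

lemma trC_le {A : ArithmeticFunction ℂ} {B : ℕ → ℝ} (N : ℕ) (h : ∀ n, ‖A n‖ ≤ B n) (n : ℕ) : ‖trC N A n‖ ≤ B n := by
  rw [trC_apply]
  split_ifs
  · exact h n
  · rw [norm_zero]; exact (norm_nonneg _).trans (h n)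

lemma Dc_hasSum (A : ArithmeticFunction ℂ) (M : ℕ) (hM : ∀ n : ℕ, M < n → A n = 0) (s : ℂ) :
    LSeriesHasSum (fun n => A n) s (Dc A M s) := by
  unfold LSeriesHasSum
  have h1 : Dc A M s = ∑ n ∈ Icc 1 M, LSeries.term (fun n => A n) s n := by
    unfold Dc
    refine sum_congr rfl fun n hn => ?_
    rw [mem_Icc] at hn
    rw [LSeries.term_of_ne_zero (by omega), Complex.cpow_neg, div_eq_mul_inv]
  rw [h1]
  apply hasSum_sum_of_ne_finset_zero
  intro n hn
  rw [mem_Icc, not_and_or] at hn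
  rcases Nat.eq_zero_or_pos n with h0 | h0
  · subst h0; exact LSeries.term_zero _ _
  · rcases hn with h | h
    · omega
    · rw [LSeries.term_of_ne_zero (by omega), hM n (by omega)]
      simp

lemma Dc_mul (A B : ArithmeticFunction ℂ) (M₁ M₂ : ℕ) (h1 : ∀ n : ℕ, M₁ < n → A n = 0)
    (h2 : ∀ n : ℕ, M₂ < n → B n = 0) (s : ℂ) :
    (∀ n : ℕ, M₁ * M₂ < n → (A * B) n = 0) ∧ Dc (A * B : ArithmeticFunction ℂ) (M₁ * M₂) s = Dc A M₁ s * Dc B M₂ s := by
  have h0 : ∀ n : ℕ, M₁ * M₂ < n → (A * B) n = 0 := by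
    intro n hn
    rw [ArithmeticFunction.mul_apply]
    apply sum_eq_zero
    intro x hx
    rw [Nat.mem_divisorsAntidiagonal] at hx
    by_cases g1 : M₁ < x.1
    · rw [h1 _ g1, zero_mul]
    · by_cases g2 : M₂ < x.2
      · rw [h2 _ g2, mul_zero]
      · exfalso
        rw [not_lt] at g1 g2
        have := Nat.mul_le_mul g1 g2
        omega
  refine ⟨h0, ?_⟩
  have g1 := Dc_hasSum (A * B) (M₁ * M₂) h0 s
  have g2 := ArithmeticFunction.LSeriesHasSum_mul (Dc_hasSum A M₁ h1 s) (Dc_hasSum B M₂ h2 s)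
  exact HasSum.unique g1 g2

lemma Dc_prod {ι : Type*} [DecidableEq ι] (S : Finset ι) (f : ι → ArithmeticFunction ℂ) (N : ℕ)
    (h : ∀ i ∈ S, ∀ n : ℕ, N < n → f i n = 0) (s : ℂ) :
    (∀ n : ℕ, N ^ #S < n → (∏ i ∈ S, f i) n = 0) ∧
      Dc (∏ i ∈ S, f i : ArithmeticFunction ℂ) (N ^ #S) s = ∏ i ∈ S, Dc (f i) N s := by
  induction S using Finset.induction_on with
  | empty =>
    simp only [prod_empty, card_empty, pow_zero]
    refine ⟨fun n hn => ?_, ?_⟩
    · rw [ArithmeticFunction.one_apply_ne (by omega)]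
    · unfold Dc
      simp
  | insert i S hi ih =>
    obtain ⟨g1, g2⟩ := ih fun j hj => h j (mem_insert_of_mem hj)
    rw [prod_insert hi, prod_insert hi, card_insert_of_notMem hi, pow_succ, mul_comm (N ^ #S) N, ← g2]
    exact Dc_mul _ _ _ _ (h i (mem_insert_self _ _)) g1 s

lemma norm_mul_le' {A B : ArithmeticFunction ℂ} {A' B' : ArithmeticFunction ℝ} (hA : ∀ n, ‖A n‖ ≤ A' n)
    (hB : ∀ n, ‖B n‖ ≤ B' n) (n : ℕ) : ‖(A * B) n‖ ≤ (A' * B') n := by
  rw [ArithmeticFunction.mul_apply, ArithmeticFunction.mul_apply]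
  refine (norm_sum_le _ _).trans (sum_le_sum fun x _ => ?_)
  rw [norm_mul]
  exact mul_le_mul (hA _) (hB _) (norm_nonneg _) ((norm_nonneg _).trans (hA _))

lemma norm_prod_le' {ι : Type*} [DecidableEq ι] (S : Finset ι) (f : ι → ArithmeticFunction ℂ) (K : ℕ)
    (h : ∀ i ∈ S, ∀ n : ℕ, ‖f i n‖ ≤ dv K n) (n : ℕ) :
    ‖(∏ i ∈ S, f i) n‖ ≤ dv ((#S * K : ℕ) : ℝ) n := by
  suffices H : ∀ n, ‖(∏ i ∈ S, f i) n‖ ≤ dA ((#S * K : ℕ) : ℝ) n from H n
  induction S using Finset.induction_on with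
  | empty =>
    intro n
    simp only [prod_empty, card_empty, zero_mul, Nat.cast_zero]
    rw [dA_zero]
    by_cases h1 : n = 1
    · subst h1; simp
    · rw [ArithmeticFunction.one_apply_ne h1, ArithmeticFunction.one_apply_ne h1, norm_zero]
  | insert i S hi ih =>
    intro n
    have g := ih fun j hj => h j (mem_insert_of_mem hj)
    rw [prod_insert hi, card_insert_of_notMem hi]
    have e : (((#S + 1) * K : ℕ) : ℝ) = (K:ℝ) + ((#S * K : ℕ) : ℝ) := by push_cast; ring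
    rw [e, ← dA_mul]
    exact norm_mul_le' (A' := dA K) (fun n => h i (mem_insert_self _ _) n) g n

lemma prod_low {ι : Type*} [DecidableEq ι] (S : Finset ι) (f : ι → ArithmeticFunction ℂ) {N n : ℕ} (hn : n ≤ N) :
    (∏ i ∈ S, trC N (f i)) n = (∏ i ∈ S, f i) n := by
  suffices H : ∀ n, n ≤ N → (∏ i ∈ S, trC N (f i)) n = (∏ i ∈ S, f i) n from H n hn
  induction S using Finset.induction_on with
  | empty => intro n _; simp
  | insert i S hi ih =>
    intro n hn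
    rw [prod_insert hi, prod_insert hi, ArithmeticFunction.mul_apply, ArithmeticFunction.mul_apply]
    refine sum_congr rfl fun x hx => ?_
    obtain ⟨h1, h2⟩ := div_le_of_mem hx
    rw [ih _ (by omega), trC_apply, if_pos (by omega)]

/-- a shifted polynomial -/
lemma Dc_shift (N : ℕ) (y c δ t : ℝ) : Dc (trC N (tw1 y c)) N (sp δ t) = Dy N y (sp δ (t + c)) := by
  unfold Dc Dy
  rw [Dp_natCast]
  refine sum_congr rfl fun n hn => ?_
  rw [mem_Icc] at hn
  rw [trC_apply, if_pos hn.2, Pool.Agent.Y746.OA.tr_apply, if_pos hn.2, tw1_apply, dA_apply, mul_assoc]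
  congr 1
  have hn0 : (n:ℂ) ≠ 0 := by exact_mod_cast (by omega : n ≠ 0)
  rw [← Complex.cpow_add _ _ hn0]
  congr 1
  unfold sp
  push_cast
  ring

/-- the mean square of `ζ - D_1` for shifts -/
theorem zeta_ms_shift : ∃ C T0 : ℝ, 0 < C ∧ 4 ≤ T0 ∧ ∀ T : ℝ, T0 ≤ T → ∀ N : ℕ, 1 ≤ N → (N:ℝ) ^ 3 ≤ T →
    ∀ δ : ℝ, 1 / Real.log T ≤ δ → δ ≤ 1 / 16 → ∀ c : ℝ, |c| ≤ T →
    ∫ t in (0:ℝ)..T, ‖riemannZeta (sp δ (t + c)) - Dy N 1 (sp δ (t + c))‖ ^ 2 ≤
      C * (N:ℝ) ^ (-(2 * δ)) * (T * Real.log T) := by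
  obtain ⟨C, T0, hC, hT0, hms⟩ := zeta_ms
  refine ⟨8 * C, T0, by positivity, hT0, ?_⟩
  intro T hT N hN hNT δ hδ hδ1 c hc
  have hT4 : 4 ≤ T := hT0.trans hT
  set g : ℝ → ℝ := fun t => ‖riemannZeta (sp δ t) - Dy N 1 (sp δ t)‖ ^ 2 with hg
  have hgc : Continuous g := (((zeta_sp_cont hδ1).sub (Dy_cont N 1 δ)).norm).pow 2
  have hg0 : ∀ t, 0 ≤ g t := fun t => by rw [hg]; positivity
  have hev : ∀ t, g (-t) = g t := by
    intro t
    have e1 : sp δ (-t) = (starRingEnd ℂ) (sp δ t) := by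
      unfold sp
      simp only [map_add, map_mul, Complex.conj_ofReal, Complex.conj_I]
      push_cast; ring
    have e2 : Dy N 1 ((starRingEnd ℂ) (sp δ t)) = (starRingEnd ℂ) (Dy N 1 (sp δ t)) := by
      rw [Dy1_eq, Dy1_eq, map_sum]
      refine sum_congr rfl fun n hn => ?_
      rw [mem_Icc] at hn
      rw [conj_ncpow n hn.1, map_neg]
    rw [hg]
    simp only
    rw [e1, e2, riemannZeta_conj, ← map_sub, RCLike.norm_conj]
  have h1 : ∫ t in (0:ℝ)..T, ‖riemannZeta (sp δ (t + c)) - Dy N 1 (sp δ (t + c))‖ ^ 2 = ∫ t in (0 + c)..(T + c), g t :=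
    intervalIntegral.integral_comp_add_right (f := g) c
  have hc2 := abs_le.mp hc
  have h2 : ∫ t in (0 + c)..(T + c), g t ≤ ∫ t in (-T)..(2 * T), g t := by
    refine intervalIntegral.integral_mono_interval (by linarith) (by linarith) (by linarith) ?_
      (hgc.intervalIntegrable _ _)
    exact Filter.Eventually.of_forall fun t => hg0 t
  have h3 : ∫ t in (-T)..(2 * T), g t = (∫ t in (-T)..(0:ℝ), g t) + ∫ t in (0:ℝ)..(2 * T), g t :=
    (intervalIntegral.integral_add_adjacent_intervals (hgc.intervalIntegrable _ _) (hgc.intervalIntegrable _ _)).symm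
  have h4 : ∫ t in (-T)..(0:ℝ), g t = ∫ t in (0:ℝ)..T, g t := by
    have := intervalIntegral.integral_comp_neg (a := 0) (b := T) (f := g)
    rw [neg_zero] at this
    rw [← this]
    exact intervalIntegral.integral_congr fun t _ => hev t
  have h5 : ∫ t in (0:ℝ)..T, g t ≤ ∫ t in (0:ℝ)..(2 * T), g t := by
    refine intervalIntegral.integral_mono_interval le_rfl (by linarith) (by linarith) ?_
      (hgc.intervalIntegrable _ _)
    exact Filter.Eventually.of_forall fun t => hg0 t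
  have hlog : 0 < Real.log T := Real.log_pos (by linarith)
  have hlog2 : Real.log T ≤ Real.log (2 * T) := Real.log_le_log (by linarith) (by linarith)
  have h6 := hms (2 * T) (by linarith) N hN (by linarith) δ ((div_le_div_of_nonneg_left (by norm_num) hlog hlog2).trans hδ) hδ1
  have h7 : Real.log (2 * T) ≤ 2 * Real.log T := by
    rw [Real.log_mul (by norm_num) (by linarith)]
    have : Real.log 2 ≤ Real.log T := Real.log_le_log (by norm_num) (by linarith)
    linarith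
  have h8 : ∫ t in (0:ℝ)..(2 * T), g t ≤ C * (N:ℝ) ^ (-(2 * δ)) * (2 * T * Real.log (2 * T)) := h6
  have h9 : C * (N:ℝ) ^ (-(2 * δ)) * (2 * T * Real.log (2 * T)) ≤ C * (N:ℝ) ^ (-(2 * δ)) * (2 * T * (2 * Real.log T)) := by
    gcongr
  rw [h1]
  nlinarith [h2, h3, h4, h5, h8, h9]

end

end Pool.Agent.Y746.CS
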