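import Mathlib

set_option autoImplicit false

/-! Choice of the parameters. -/

namespace Pool.Agent.Y746.CS

open Filter

noncomputable section

/-- the parameters -/
theorem par (Q P R : ℕ) (hQ : 6 ≤ Q) (hR : 1 ≤ R) (L0 : ℝ) : ∃ C T0 : ℝ, 0 < C ∧
    ∀ T : ℝ, T0 ≤ T → ∀ δ : ℝ, C * Real.log (Real.log T) / Real.log T ≤ δ → δ ≤ 1 / 16 →
    4 ≤ T ∧ 24 ≤ Real.log T ∧ L0 ≤ Real.log T ∧ L0 ≤ T ∧ 0 < δ ∧ 2 / δ ≤ Real.log T ∧ 1 / Real.log T ≤ δ ∧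
    ∃ (N : ℕ) (X : ℝ), 1 ≤ N ∧ (N:ℝ) ^ 3 ≤ T ∧ 1 ≤ X ∧ 4 * (N:ℝ) ^ Q ≤ T * (X ^ 16)⁻¹ ∧ (N:ℝ) ^ (-δ) ≤ (X ^ 16)⁻¹ ∧
      (N:ℝ) ^ (-(2 * δ)) ≤ (X ^ 16)⁻¹ ∧ Real.log T ^ P ≤ X ∧
      ∀ V : ℝ, 1 ≤ V → V ≤ T ^ (δ / (64 * Q * R)) → V ^ R ≤ X := by
  set θ : ℝ := 1 / (4 * Q) with hθ
  have hQ6 : (6:ℝ) ≤ Q := by exact_mod_cast hQ
  have hQ0 : (0:ℝ) < Q := by linarith
  have hR1 : (1:ℝ) ≤ R := by exact_mod_cast hR
  have hθ0 : 0 < θ := by positivity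
  have hθ1 : θ ≤ 1 / 24 := by
    rw [hθ, div_le_div_iff₀ (by positivity) (by norm_num)]; linarith
  set C : ℝ := 16 * (P + 1) / θ with hC
  have hC0 : 0 < C := by positivity
  have hC2 : 2 ≤ C := by
    rw [hC, le_div_iff₀ hθ0]
    have : (0:ℝ) ≤ P := Nat.cast_nonneg P
    nlinarith
  have hev2 := (Real.tendsto_log_atTop.eventually (eventually_ge_atTop (max (max 24 L0) (4 * ((Q:ℝ) + 2))))).and
    (eventually_ge_atTop (max L0 4))
  rw [eventually_atTop] at hev2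
  obtain ⟨T0, hT0⟩ := hev2
  refine ⟨C, T0, hC0, fun T hT δ hδ hδ1 => ?_⟩
  obtain ⟨hLL, hTT⟩ := hT0 T hT
  have hT4 : 4 ≤ T := (le_max_right _ _).trans hTT
  have hTp : 0 < T := by linarith
  have hL24 : 24 ≤ Real.log T := (le_max_left _ _).trans ((le_max_left _ _).trans hLL)
  have hLL0 : L0 ≤ Real.log T := (le_max_right _ _).trans ((le_max_left _ _).trans hLL)
  have hLQ : 4 * ((Q:ℝ) + 2) ≤ Real.log T := (le_max_right _ _).trans hLL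
  set L := Real.log T with hL
  have hL0 : 0 < L := by linarith
  have hL1 : 1 ≤ L := by linarith
  have hTe : T = Real.exp L := (Real.exp_log hTp).symm
  have hlL : 1 ≤ Real.log L := by
    rw [Real.le_log_iff_exp_le hL0]
    linarith [Real.exp_one_lt_d9]
  have hδC : C * Real.log L ≤ δ * L := by rwa [div_le_iff₀ hL0] at hδ
  have hδ2 : 2 ≤ δ * L := by nlinarith
  have hδ0 : 0 < δ := by
    by_contra h
    push Not at h
    nlinarith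
  have h2δ : 2 / δ ≤ L := by rw [div_le_iff₀ hδ0]; linarith
  have h1L : 1 / L ≤ δ := by rw [div_le_iff₀ hL0]; linarith
  set X : ℝ := Real.exp (θ * δ * L / 16) with hX
  have hX0 : 0 < X := Real.exp_pos _
  have hX1 : 1 ≤ X := Real.one_le_exp (by positivity)
  have hLpow : ∀ n : ℕ, L ^ n = Real.exp (n * Real.log L) := by
    intro n
    rw [mul_comm, Real.exp_mul, Real.exp_log hL0, Real.rpow_natCast]
  have hXP : L ^ P ≤ X := by
    rw [hLpow, hX]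
    refine Real.exp_le_exp.mpr ?_
    have h1 : θ * (C * Real.log L) ≤ θ * (δ * L) := mul_le_mul_of_nonneg_left hδC hθ0.le
    have h2 : θ * C = 16 * (P + 1) := by rw [hC]; field_simp
    rw [← mul_assoc, h2] at h1
    linarith
  have hX16 : X ^ 16 = Real.exp (θ * δ * L) := by
    rw [hX, ← Real.exp_nat_mul]; congr 1; push_cast; ring
  have hXT : X ^ 16 ≤ Real.exp (L / 2) := by
    rw [hX16]
    refine Real.exp_le_exp.mpr ?_
    have : θ * δ ≤ 1 / 2 := by nlinarith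
    nlinarith
  set N : ℕ := ⌈T ^ θ⌉₊ with hN
  have hTθ : 1 ≤ T ^ θ := Real.one_le_rpow (by linarith) hθ0.le
  have hNle : T ^ θ ≤ N := Nat.le_ceil _
  have hN1r : (1:ℝ) ≤ N := hTθ.trans hNle
  have hN1 : 1 ≤ N := by exact_mod_cast hN1r
  have hN2 : (N:ℝ) ≤ 2 * T ^ θ := by
    have := (Nat.ceil_lt_add_one (by linarith : 0 ≤ T ^ θ)).le
    linarith
  have hTθe : T ^ θ = Real.exp (θ * L) := by
    rw [hTe, ← Real.exp_mul]; congr 1; ring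
  have hNQ : 4 * (N:ℝ) ^ Q ≤ Real.exp (L / 2) := by
    have h1 : (N:ℝ) ^ Q ≤ 2 ^ Q * Real.exp (L / 4) := by
      calc (N:ℝ) ^ Q ≤ (2 * T ^ θ) ^ Q := pow_le_pow_left₀ (by positivity) hN2 Q
        _ = 2 ^ Q * Real.exp (L / 4) := by
          rw [mul_pow, hTθe, ← Real.exp_nat_mul]
          congr 2
          rw [hθ]; field_simp
    have h2 : (2:ℝ) ^ (Q + 2) ≤ Real.exp (L / 4) := by
      calc (2:ℝ) ^ (Q + 2) ≤ (Real.exp 1) ^ (Q + 2) :=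
            pow_le_pow_left₀ (by norm_num) (by linarith [Real.add_one_le_exp (1:ℝ)]) _
        _ = Real.exp ((Q:ℝ) + 2) := by rw [← Real.exp_nat_mul]; push_cast; ring_nf
        _ ≤ _ := Real.exp_le_exp.mpr (by linarith)
    calc 4 * (N:ℝ) ^ Q ≤ 4 * (2 ^ Q * Real.exp (L / 4)) := by linarith
      _ = 2 ^ (Q + 2) * Real.exp (L / 4) := by ring
      _ ≤ Real.exp (L / 4) * Real.exp (L / 4) := mul_le_mul_of_nonneg_right h2 (Real.exp_pos _).le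
      _ = _ := by rw [← Real.exp_add]; congr 1; ring
  have hNQT : 4 * (N:ℝ) ^ Q ≤ T * (X ^ 16)⁻¹ := by
    refine hNQ.trans ?_
    rw [le_mul_inv_iff₀ (by positivity)]
    calc Real.exp (L / 2) * X ^ 16 ≤ Real.exp (L / 2) * Real.exp (L / 2) := mul_le_mul_of_nonneg_left hXT (Real.exp_pos _).le
      _ = T := by rw [← Real.exp_add, hTe]; congr 1; ring
  have hN3 : (N:ℝ) ^ 3 ≤ T := by
    have h1 : (N:ℝ) ^ 3 ≤ (N:ℝ) ^ Q := pow_le_pow_right₀ hN1r (by omega)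
    have h2 : Real.exp (L / 2) ≤ T := by rw [hTe]; exact Real.exp_le_exp.mpr (by linarith)
    have h3 : (0:ℝ) ≤ (N:ℝ) ^ Q := by positivity
    linarith
  have hNδ : (N:ℝ) ^ (-δ) ≤ (X ^ 16)⁻¹ := by
    calc (N:ℝ) ^ (-δ) ≤ (T ^ θ) ^ (-δ) := Real.rpow_le_rpow_of_nonpos (by linarith) hNle (by linarith)
      _ = (X ^ 16)⁻¹ := by
        rw [hX16, hTθe, ← Real.exp_mul, ← Real.exp_neg]; congr 1; ring
  have hN2δ : (N:ℝ) ^ (-(2 * δ)) ≤ (X ^ 16)⁻¹ := by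
    refine le_trans ?_ hNδ
    exact Real.rpow_le_rpow_of_exponent_le hN1r (by linarith)
  refine ⟨hT4, hL24, hLL0, (le_max_left _ _).trans hTT, hδ0, h2δ, h1L, N, X, hN1, hN3, hX1, hNQT, hNδ, hN2δ, hXP, ?_⟩
  intro V hV1 hV2
  have hc : δ / (64 * Q * R) = θ * δ / (16 * R) := by rw [hθ]; field_simp; ring
  rw [hc] at hV2
  calc V ^ R ≤ (T ^ (θ * δ / (16 * R))) ^ R := pow_le_pow_left₀ (by linarith) hV2 R
    _ = X := by
      rw [hTe, ← Real.exp_mul, ← Real.exp_nat_mul, hX]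
      congr 1
      field_simp

end

end Pool.Agent.Y746.CS
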