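import Mathlib

set_option autoImplicit false

/-! Pointwise inequalities for products and their integrated form. -/

namespace Pool.Agent.Y746.CS

open MeasureTheory Finset

noncomputable section

lemma prod_diff {ι : Type*} [DecidableEq ι] (S : Finset ι) (x y : ι → ℂ) {B : ℝ} (hB : 1 ≤ B)
    (hx : ∀ i ∈ S, ‖x i‖ ≤ B) (hy : ∀ i ∈ S, ‖y i‖ ≤ B) :
    ‖∏ i ∈ S, x i - ∏ i ∈ S, y i‖ ≤ B ^ #S * ∑ i ∈ S, ‖x i - y i‖ := by
  induction S using Finset.induction_on with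
  | empty => simp
  | insert i S hi ih =>
    have g := ih (fun j hj => hx j (mem_insert_of_mem hj)) fun j hj => hy j (mem_insert_of_mem hj)
    rw [prod_insert hi, prod_insert hi, sum_insert hi, card_insert_of_notMem hi]
    have e : x i * ∏ j ∈ S, x j - y i * ∏ j ∈ S, y j =
        (x i - y i) * ∏ j ∈ S, x j + y i * (∏ j ∈ S, x j - ∏ j ∈ S, y j) := by ring
    rw [e]
    refine (norm_add_le _ _).trans ?_
    rw [norm_mul, norm_mul]
    have h1 : ‖∏ j ∈ S, x j‖ ≤ B ^ #S := by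
      rw [norm_prod]
      refine (prod_le_prod (fun j _ => norm_nonneg _) fun j hj => hx j (mem_insert_of_mem hj)).trans ?_
      rw [prod_const]
    have hB0 : 0 ≤ B := by linarith
    have h2 : (0:ℝ) ≤ ∑ j ∈ S, ‖x j - y j‖ := sum_nonneg fun _ _ => norm_nonneg _
    have h3 : B ^ #S ≤ B ^ (#S + 1) := pow_le_pow_right₀ hB (by omega)
    calc ‖x i - y i‖ * ‖∏ j ∈ S, x j‖ + ‖y i‖ * ‖∏ j ∈ S, x j - ∏ j ∈ S, y j‖ ≤
        ‖x i - y i‖ * B ^ (#S + 1) + B * (B ^ #S * ∑ j ∈ S, ‖x j - y j‖) := by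
          gcongr
          · exact h1.trans h3
          · exact hy i (mem_insert_self _ _)
      _ = _ := by ring

/-- the pointwise inequality -/
lemma pt1 {ι : Type*} [Fintype ι] [DecidableEq ι] (x y : ι → ℂ) {V κ η : ℝ} (hV : 2 ≤ V) (hκ : 0 < κ) (hη : 0 < η)
    (G : Prop) [Decidable G] (hG : G ↔ ∀ i, ‖x i‖ ≤ V) :
    ‖(if G then ∏ i, x i else 0) - ∏ i, y i‖ ≤
      (V + 1) ^ Fintype.card ι * (Fintype.card ι * κ) +
      ((V + 1) ^ Fintype.card ι / κ + V ^ Fintype.card ι + 1 / η) * ∑ i, ‖x i - y i‖ ^ 2 +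
      η * ‖∏ i, y i‖ ^ 2 + 4 / (η * V ^ 2) * ∑ i, ‖y i‖ ^ 2 := by
  set r := Fintype.card ι with hr
  set E := ∑ i, ‖x i - y i‖ ^ 2 with hE
  set Y := ∑ i, ‖y i‖ ^ 2 with hY
  set P := ‖∏ i, y i‖ with hP
  have hE0 : 0 ≤ E := sum_nonneg fun _ _ => sq_nonneg _
  have hY0 : 0 ≤ Y := sum_nonneg fun _ _ => sq_nonneg _
  have hP0 : 0 ≤ P := norm_nonneg _
  have hV0 : 0 < V := by linarith
  have a1 : 0 ≤ (V + 1) ^ r * (r * κ) := by positivity
  have a2 : 0 ≤ (V + 1) ^ r / κ * E := by positivity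
  have a3 : 0 ≤ V ^ r * E := by positivity
  have a4 : 0 ≤ 1 / η * E := by positivity
  have a5 : 0 ≤ η * P ^ 2 := by positivity
  have a6 : 0 ≤ 4 / (η * V ^ 2) * Y := by positivity
  have hPη : P ≤ η * P ^ 2 + 1 / η := by
    have h1 : η * P ^ 2 + 1 / η - 2 * P = (η * P - 1) ^ 2 / η := by field_simp; ring
    have h2 : 0 ≤ (η * P - 1) ^ 2 / η := by positivity
    linarith
  have hbig : ∀ i, 1 < ‖x i - y i‖ → 1 ≤ E := by
    intro i hi
    have h1 : ‖x i - y i‖ ^ 2 ≤ E := single_le_sum (f := fun i => ‖x i - y i‖ ^ 2) (fun _ _ => sq_nonneg _) (mem_univ i)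
    nlinarith
  by_cases hg : G
  · rw [if_pos hg]
    have hx := hG.1 hg
    by_cases hs : ∀ i, ‖x i - y i‖ ≤ 1
    · have hy : ∀ i, ‖y i‖ ≤ V + 1 := by
        intro i
        have h1 : ‖y i‖ ≤ ‖x i‖ + ‖x i - y i‖ := by
          have := norm_sub_le (x i) (x i - y i)
          rwa [sub_sub_cancel] at this
        linarith [hx i, hs i]
      have h1 := prod_diff univ x y (B := V + 1) (by linarith) (fun i _ => by linarith [hx i]) fun i _ => hy i
      rw [card_univ, ← hr] at h1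
      have h2 : ∑ i, ‖x i - y i‖ ≤ r * κ + E / κ := by
        have : ∀ i, ‖x i - y i‖ ≤ κ + ‖x i - y i‖ ^ 2 / κ := by
          intro i
          rcases le_or_gt ‖x i - y i‖ κ with h | h
          · have : 0 ≤ ‖x i - y i‖ ^ 2 / κ := by positivity
            linarith
          · have : ‖x i - y i‖ ≤ ‖x i - y i‖ ^ 2 / κ := by
              rw [le_div_iff₀ hκ]; nlinarith
            linarith
        refine (sum_le_sum fun i _ => this i).trans (le_of_eq ?_)
        rw [sum_add_distrib, sum_const, card_univ, nsmul_eq_mul, ← sum_div]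
      have h3 := mul_le_mul_of_nonneg_left h2 (by positivity : 0 ≤ (V + 1) ^ r)
      have e : (V + 1) ^ r * (r * κ + E / κ) = (V + 1) ^ r * (r * κ) + (V + 1) ^ r / κ * E := by ring
      rw [e] at h3
      have := h1.trans h3
      linarith
    · push Not at hs
      obtain ⟨i, hi⟩ := hs
      have hE1 := hbig i hi
      have h1 : ‖∏ i, x i‖ ≤ V ^ r := by
        rw [norm_prod]
        refine (prod_le_prod (fun j _ => norm_nonneg _) fun j _ => hx j).trans ?_
        rw [prod_const, card_univ]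
      have h2 : ‖∏ i, x i - ∏ i, y i‖ ≤ V ^ r + P := (norm_sub_le _ _).trans (add_le_add h1 le_rfl)
      have h3 : V ^ r ≤ V ^ r * E := le_mul_of_one_le_right (by positivity) hE1
      have h4 : 1 / η ≤ 1 / η * E := le_mul_of_one_le_right (by positivity) hE1
      linarith
  · rw [if_neg hg, zero_sub, norm_neg]
    rw [hG] at hg
    push Not at hg
    obtain ⟨i, hi⟩ := hg
    rcases le_or_gt ‖x i - y i‖ 1 with h | h
    · have h1 : V / 2 ≤ ‖y i‖ := by
        have h1 : ‖x i‖ ≤ ‖y i‖ + ‖x i - y i‖ := by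
          have := norm_add_le (y i) (x i - y i)
          rwa [add_sub_cancel] at this
        linarith
      have h2 : ‖y i‖ ^ 2 ≤ Y := single_le_sum (f := fun i => ‖y i‖ ^ 2) (fun _ _ => sq_nonneg _) (mem_univ i)
      have h3 : V ^ 2 / 4 ≤ Y := by nlinarith
      have h4 : 1 / η ≤ 4 / (η * V ^ 2) * Y := by
        calc 1 / η = 4 / (η * V ^ 2) * (V ^ 2 / 4) := by field_simp
          _ ≤ _ := mul_le_mul_of_nonneg_left h3 (by positivity)
      linarith
    · have hE1 := hbig i h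
      have h4 : 1 / η ≤ 1 / η * E := le_mul_of_one_le_right (by positivity) hE1
      linarith

/-- the measure of the complement, pointwise -/
lemma pt2 {ι : Type*} [Fintype ι] [DecidableEq ι] (x y : ι → ℂ) {V : ℝ} (hV : 2 ≤ V)
    (G : Prop) [Decidable G] (hG : G ↔ ∀ i, ‖x i‖ ≤ V) :
    (if G then (0:ℝ) else 1) ≤ ∑ i, ‖x i - y i‖ ^ 2 + 4 / V ^ 2 * ∑ i, ‖y i‖ ^ 2 := by
  set E := ∑ i, ‖x i - y i‖ ^ 2 with hE
  set Y := ∑ i, ‖y i‖ ^ 2 with hY
  have hE0 : 0 ≤ E := sum_nonneg fun _ _ => sq_nonneg _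
  have hY0 : 0 ≤ Y := sum_nonneg fun _ _ => sq_nonneg _
  have hV0 : 0 < V := by linarith
  by_cases hg : G
  · rw [if_pos hg]; positivity
  · rw [if_neg hg]
    rw [hG] at hg
    push Not at hg
    obtain ⟨i, hi⟩ := hg
    rcases le_or_gt ‖x i - y i‖ 1 with h | h
    · have h1 : V / 2 ≤ ‖y i‖ := by
        have h1 : ‖x i‖ ≤ ‖y i‖ + ‖x i - y i‖ := by
          have := norm_add_le (y i) (x i - y i)
          rwa [add_sub_cancel] at this
        linarith
      have h2 : ‖y i‖ ^ 2 ≤ Y := single_le_sum (f := fun i => ‖y i‖ ^ 2) (fun _ _ => sq_nonneg _) (mem_univ i)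
      have h3 : V ^ 2 / 4 ≤ Y := by nlinarith
      have h4 : 1 ≤ 4 / V ^ 2 * Y := by
        calc (1:ℝ) = 4 / V ^ 2 * (V ^ 2 / 4) := by field_simp
          _ ≤ _ := mul_le_mul_of_nonneg_left h3 (by positivity)
      linarith
    · have h1 : ‖x i - y i‖ ^ 2 ≤ E := single_le_sum (f := fun i => ‖x i - y i‖ ^ 2) (fun _ _ => sq_nonneg _) (mem_univ i)
      have : 0 ≤ 4 / V ^ 2 * Y := by positivity
      nlinarith

open Classical in
/-- the integrated inequality -/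
theorem int1 {ι : Type*} [Fintype ι] (X Y : ι → ℝ → ℂ) (hX : ∀ i, Continuous (X i))
    (hY : ∀ i, Continuous (Y i)) {V κ η T : ℝ} (hV : 2 ≤ V) (hκ : 0 < κ) (hη : 0 < η) (hT : 0 ≤ T) :
    ‖(∫ t in {t | t ∈ Set.Ioc 0 T ∧ ∀ i, ‖X i t‖ ≤ V}, ∏ i, X i t) - ∫ t in (0:ℝ)..T, ∏ i, Y i t‖ ≤
      (V + 1) ^ Fintype.card ι * (Fintype.card ι * κ) * T +
      ((V + 1) ^ Fintype.card ι / κ + V ^ Fintype.card ι + 1 / η) * (∑ i, ∫ t in (0:ℝ)..T, ‖X i t - Y i t‖ ^ 2) +
      η * (∫ t in (0:ℝ)..T, ‖∏ i, Y i t‖ ^ 2) + 4 / (η * V ^ 2) * (∑ i, ∫ t in (0:ℝ)..T, ‖Y i t‖ ^ 2) := by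
  set A : Set ℝ := {t | ∀ i, ‖X i t‖ ≤ V} with hA
  have hAm : MeasurableSet A := by
    have : A = ⋂ i, {t | ‖X i t‖ ≤ V} := by
      ext t; simp [hA]
    rw [this]
    exact MeasurableSet.iInter fun i => (isClosed_le (hX i).norm continuous_const).measurableSet
  have hset : {t | t ∈ Set.Ioc 0 T ∧ ∀ i, ‖X i t‖ ≤ V} = Set.Ioc 0 T ∩ A := rfl
  have hPX : Continuous fun t => ∏ i, X i t := continuous_finsetProd _ fun i _ => hX i
  have hPY : Continuous fun t => ∏ i, Y i t := continuous_finsetProd _ fun i _ => hY i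
  have e1 : ∫ t in {t | t ∈ Set.Ioc 0 T ∧ ∀ i, ‖X i t‖ ≤ V}, ∏ i, X i t =
      ∫ t in Set.Ioc 0 T, A.indicator (fun t => ∏ i, X i t) t := by
    rw [hset, setIntegral_indicator hAm]
  have iX : IntegrableOn (fun t => ∏ i, X i t) (Set.Ioc 0 T) volume := (hPX.intervalIntegrable 0 T).1
  have iY : IntegrableOn (fun t => ∏ i, Y i t) (Set.Ioc 0 T) volume := (hPY.intervalIntegrable 0 T).1
  have iXA : IntegrableOn (A.indicator fun t => ∏ i, X i t) (Set.Ioc 0 T) volume := iX.indicator hAm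
  rw [e1, intervalIntegral.integral_of_le hT, ← integral_sub iXA iY]
  have cE : Continuous fun t => ∑ i, ‖X i t - Y i t‖ ^ 2 := continuous_finsetSum _ fun i _ => ((hX i).sub (hY i)).norm.pow 2
  have cYY : Continuous fun t => ∑ i, ‖Y i t‖ ^ 2 := continuous_finsetSum _ fun i _ => (hY i).norm.pow 2
  have cP : Continuous fun t => ‖∏ i, Y i t‖ ^ 2 := hPY.norm.pow 2
  set F : ℝ → ℝ := fun t => (V + 1) ^ Fintype.card ι * (Fintype.card ι * κ) +
      ((V + 1) ^ Fintype.card ι / κ + V ^ Fintype.card ι + 1 / η) * (∑ i, ‖X i t - Y i t‖ ^ 2) +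
      η * ‖∏ i, Y i t‖ ^ 2 + 4 / (η * V ^ 2) * (∑ i, ‖Y i t‖ ^ 2) with hF
  have c1 : Continuous fun t => (V + 1) ^ Fintype.card ι * (Fintype.card ι * κ) +
      ((V + 1) ^ Fintype.card ι / κ + V ^ Fintype.card ι + 1 / η) * (∑ i, ‖X i t - Y i t‖ ^ 2) :=
    continuous_const.add (continuous_const.mul cE)
  have c2 : Continuous fun t => (V + 1) ^ Fintype.card ι * (Fintype.card ι * κ) +
      ((V + 1) ^ Fintype.card ι / κ + V ^ Fintype.card ι + 1 / η) * (∑ i, ‖X i t - Y i t‖ ^ 2) +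
      η * ‖∏ i, Y i t‖ ^ 2 := c1.add (continuous_const.mul cP)
  have cF : Continuous F := c2.add (continuous_const.mul cYY)
  have h1 : ‖∫ t in Set.Ioc 0 T, (A.indicator (fun t => ∏ i, X i t) t - ∏ i, Y i t)‖ ≤ ∫ t in Set.Ioc 0 T, F t := by
    refine norm_integral_le_of_norm_le (cF.intervalIntegrable 0 T).1 ?_
    refine Filter.Eventually.of_forall fun t => ?_
    have h2 : A.indicator (fun t => ∏ i, X i t) t = if t ∈ A then ∏ i, X i t else 0 := by
      rw [Set.indicator_apply]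
    rw [h2]
    exact pt1 (fun i => X i t) (fun i => Y i t) hV hκ hη (t ∈ A) Iff.rfl
  refine h1.trans (le_of_eq ?_)
  have d1 : Continuous fun t => ((V + 1) ^ Fintype.card ι / κ + V ^ Fintype.card ι + 1 / η) * (∑ i, ‖X i t - Y i t‖ ^ 2) :=
    continuous_const.mul cE
  have d2 : Continuous fun t => η * ‖∏ i, Y i t‖ ^ 2 := continuous_const.mul cP
  have d3 : Continuous fun t => 4 / (η * V ^ 2) * (∑ i, ‖Y i t‖ ^ 2) := continuous_const.mul cYY
  have f1 : ∀ i, Continuous fun t => ‖X i t - Y i t‖ ^ 2 := fun i => ((hX i).sub (hY i)).norm.pow 2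
  have f2 : ∀ i, Continuous fun t => ‖Y i t‖ ^ 2 := fun i => (hY i).norm.pow 2
  have s1 : ∫ _ in (0:ℝ)..T, (V + 1) ^ Fintype.card ι * (Fintype.card ι * κ) =
      (V + 1) ^ Fintype.card ι * (Fintype.card ι * κ) * T := by
    rw [intervalIntegral.integral_const, smul_eq_mul]; ring
  have s2 : ∫ t in (0:ℝ)..T, ((V + 1) ^ Fintype.card ι / κ + V ^ Fintype.card ι + 1 / η) * (∑ i, ‖X i t - Y i t‖ ^ 2) =
      ((V + 1) ^ Fintype.card ι / κ + V ^ Fintype.card ι + 1 / η) * (∑ i, ∫ t in (0:ℝ)..T, ‖X i t - Y i t‖ ^ 2) := by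
    rw [intervalIntegral.integral_const_mul, intervalIntegral.integral_finsetSum fun i _ => (f1 i).intervalIntegrable _ _]
  have s3 : ∫ t in (0:ℝ)..T, η * ‖∏ i, Y i t‖ ^ 2 = η * ∫ t in (0:ℝ)..T, ‖∏ i, Y i t‖ ^ 2 :=
    intervalIntegral.integral_const_mul _ _
  have s4 : ∫ t in (0:ℝ)..T, 4 / (η * V ^ 2) * (∑ i, ‖Y i t‖ ^ 2) =
      4 / (η * V ^ 2) * (∑ i, ∫ t in (0:ℝ)..T, ‖Y i t‖ ^ 2) := by
    rw [intervalIntegral.integral_const_mul, intervalIntegral.integral_finsetSum fun i _ => (f2 i).intervalIntegrable _ _]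
  rw [← intervalIntegral.integral_of_le hT, hF]
  simp only
  rw [intervalIntegral.integral_add (c2.intervalIntegrable _ _) (d3.intervalIntegrable _ _),
    intervalIntegral.integral_add (c1.intervalIntegrable _ _) (d2.intervalIntegrable _ _),
    intervalIntegral.integral_add (continuous_const.intervalIntegrable _ _) (d1.intervalIntegrable _ _), s1, s2, s3, s4]

open Classical in
/-- the measure of the complement -/
theorem meas1 {ι : Type*} [Fintype ι] (X Y : ι → ℝ → ℂ) (hX : ∀ i, Continuous (X i))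
    (hY : ∀ i, Continuous (Y i)) {V T : ℝ} (hV : 2 ≤ V) (hT : 0 ≤ T) :
    (volume {t | t ∈ Set.Ioc 0 T ∧ ¬ ∀ i, ‖X i t‖ ≤ V}).toReal ≤
      (∑ i, ∫ t in (0:ℝ)..T, ‖X i t - Y i t‖ ^ 2) + 4 / V ^ 2 * (∑ i, ∫ t in (0:ℝ)..T, ‖Y i t‖ ^ 2) := by
  set A : Set ℝ := {t | ∀ i, ‖X i t‖ ≤ V} with hA
  have hAm : MeasurableSet A := by
    have : A = ⋂ i, {t | ‖X i t‖ ≤ V} := by
      ext t; simp [hA]
    rw [this]
    exact MeasurableSet.iInter fun i => (isClosed_le (hX i).norm continuous_const).measurableSet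
  have hset : {t | t ∈ Set.Ioc 0 T ∧ ¬ ∀ i, ‖X i t‖ ≤ V} = Aᶜ ∩ Set.Ioc 0 T := by
    ext t; simp only [Set.mem_ofPred_eq, Set.mem_inter_iff, Set.mem_compl_iff, hA]; tauto
  have cE : Continuous fun t => ∑ i, ‖X i t - Y i t‖ ^ 2 := continuous_finsetSum _ fun i _ => ((hX i).sub (hY i)).norm.pow 2
  have cYY : Continuous fun t => ∑ i, ‖Y i t‖ ^ 2 := continuous_finsetSum _ fun i _ => (hY i).norm.pow 2
  have e1 : (volume {t | t ∈ Set.Ioc 0 T ∧ ¬ ∀ i, ‖X i t‖ ≤ V}).toReal =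
      ∫ t in Set.Ioc 0 T, (if t ∈ A then (0:ℝ) else 1) := by
    rw [hset]
    have h1 : (fun t => if t ∈ A then (0:ℝ) else 1) = Aᶜ.indicator fun _ => (1:ℝ) := by
      funext t
      rw [Set.indicator_apply]
      by_cases h : t ∈ A
      · rw [if_pos h, if_neg (by simpa using h)]
      · rw [if_neg h, if_pos (by simpa using h)]
    rw [h1, integral_indicator hAm.compl, setIntegral_const, smul_eq_mul, mul_one]
    unfold Measure.real
    rw [Measure.restrict_apply hAm.compl]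
  rw [e1]
  have c3 : Continuous fun t => (∑ i, ‖X i t - Y i t‖ ^ 2) + 4 / V ^ 2 * (∑ i, ‖Y i t‖ ^ 2) :=
    cE.add (continuous_const.mul cYY)
  have h1 : ∫ t in Set.Ioc 0 T, (if t ∈ A then (0:ℝ) else 1) ≤
      ∫ t in Set.Ioc 0 T, ((∑ i, ‖X i t - Y i t‖ ^ 2) + 4 / V ^ 2 * (∑ i, ‖Y i t‖ ^ 2)) := by
    refine integral_mono_of_nonneg (Filter.Eventually.of_forall fun t => ?_) (c3.intervalIntegrable 0 T).1
      (Filter.Eventually.of_forall fun t => ?_)
    · show (0:ℝ) ≤ if t ∈ A then (0:ℝ) else 1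
      split_ifs <;> norm_num
    · exact pt2 (fun i => X i t) (fun i => Y i t) hV (t ∈ A) Iff.rfl
  refine h1.trans (le_of_eq ?_)
  have d3 : Continuous fun t => 4 / V ^ 2 * (∑ i, ‖Y i t‖ ^ 2) := continuous_const.mul cYY
  have f1 : ∀ i, Continuous fun t => ‖X i t - Y i t‖ ^ 2 := fun i => ((hX i).sub (hY i)).norm.pow 2
  have f2 : ∀ i, Continuous fun t => ‖Y i t‖ ^ 2 := fun i => (hY i).norm.pow 2
  rw [← intervalIntegral.integral_of_le hT]
  rw [intervalIntegral.integral_add (cE.intervalIntegrable _ _) (d3.intervalIntegrable _ _),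
    intervalIntegral.integral_const_mul,
    intervalIntegral.integral_finsetSum (fun i _ => (f1 i).intervalIntegrable _ _),
    intervalIntegral.integral_finsetSum (fun i _ => (f2 i).intervalIntegrable _ _)]

end

end Pool.Agent.Y746.CS
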