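import Pool.Agent.Y746.CS.Alg
import Pool.Agent.Y746.CS.Pt
import Pool.Agent.Y746.CS.Par

set_option autoImplicit false

/-! Truncated shifted moments of the zeta function near the critical line. -/

namespace Pool.Agent.Y746.CS

open MeasureTheory Finset Complex
open Pool.Agent.H306R2 Pool.Agent.Y746.OA

noncomputable section

/-- the weight `n^(-1-2δ)` -/
def wt (δ : ℝ) (n : ℕ) : ℂ := (((n:ℝ) ^ (-(2 * (1 / 2 + δ))) : ℝ) : ℂ)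

lemma wt_norm (δ : ℝ) (n : ℕ) : ‖wt δ n‖ = (n:ℝ) ^ (-(2 * (1 / 2 + δ))) := by
  unfold wt
  rw [Complex.norm_real, Real.norm_of_nonneg (by positivity)]

lemma diag_le {K : ℕ} {A B : ℕ → ℂ} (hA : ∀ n, ‖A n‖ ≤ dv K n) (hB : ∀ n, ‖B n‖ ≤ dv K n) (δ : ℝ) (n : ℕ) :
    ‖A n * (starRingEnd ℂ) (B n) * wt δ n‖ ≤ dv K n ^ 2 * (n:ℝ) ^ (-(2 * (1 / 2 + δ))) := by
  rw [norm_mul, norm_mul, RCLike.norm_conj, wt_norm, sq]
  have h := mul_le_mul (hA n) (hB n) (norm_nonneg _) ((norm_nonneg _).trans (hA n))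
  exact mul_le_mul_of_nonneg_right h (by positivity)

lemma diag_summable {K : ℕ} {A B : ℕ → ℂ} (hA : ∀ n, ‖A n‖ ≤ dv K n) (hB : ∀ n, ‖B n‖ ≤ dv K n) {δ : ℝ} (hδ : 0 < δ) :
    Summable fun n : ℕ => A n * (starRingEnd ℂ) (B n) * wt δ n :=
  Summable.of_norm_bounded (SS_summable (K:ℝ) hδ) fun n => diag_le hA hB δ n

/-- truncation of the diagonal sum -/
lemma diag_trunc {K : ℕ} {F G A B : ℕ → ℂ} (hF : ∀ n, ‖F n‖ ≤ dv K n) (hG : ∀ n, ‖G n‖ ≤ dv K n)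
    (hA : ∀ n, ‖A n‖ ≤ dv K n) (hB : ∀ n, ‖B n‖ ≤ dv K n) {N M : ℕ} (hN : 1 ≤ N) (hNM : N ≤ M)
    (hFA : ∀ n, n ≤ N → F n = A n) (hGB : ∀ n, n ≤ N → G n = B n) {δ : ℝ} (hδ : 0 < δ) (hδ1 : δ ≤ 1) :
    ‖∑ n ∈ Icc 1 M, F n * (starRingEnd ℂ) (G n) * wt δ n - ∑' n : ℕ, A n * (starRingEnd ℂ) (B n) * wt δ n‖ ≤
      2 * ((N:ℝ) ^ (-δ) * (2 / δ) ^ (K ^ 2)) := by
  set u : ℕ → ℂ := fun n => A n * (starRingEnd ℂ) (B n) * wt δ n with hu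
  set v : ℕ → ℂ := fun n => if n ∈ Icc 1 M then F n * (starRingEnd ℂ) (G n) * wt δ n else 0 with hv
  have hus : Summable u := diag_summable hA hB hδ
  have hvs : HasSum v (∑ n ∈ Icc 1 M, F n * (starRingEnd ℂ) (G n) * wt δ n) := by
    have h1 : ∑ n ∈ Icc 1 M, F n * (starRingEnd ℂ) (G n) * wt δ n = ∑ n ∈ Icc 1 M, v n := by
      refine sum_congr rfl fun n hn => ?_
      rw [hv]; simp only; rw [if_pos hn]
    rw [h1]
    apply hasSum_sum_of_ne_finset_zero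
    intro n hn
    rw [hv]; simp only; rw [if_neg hn]
  have hd := hvs.sub hus.hasSum
  set w : ℕ → ℝ := fun n => if N < n then 2 * (dv K n ^ 2 * (n:ℝ) ^ (-(2 * (1 / 2 + δ)))) else 0 with hw
  have hdw : ∀ n, ‖v n - u n‖ ≤ w n := by
    intro n
    rw [hu, hv, hw]
    simp only
    split_ifs with h1 h2 h2
    · refine (norm_sub_le _ _).trans ?_
      have e1 := diag_le hF hG δ n
      have e2 := diag_le hA hB δ n
      linarith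
    · rw [hFA n (by omega), hGB n (by omega), sub_self, norm_zero]
    · rw [zero_sub, norm_neg]
      have e2 := diag_le hA hB δ n
      have e3 := norm_nonneg (A n * (starRingEnd ℂ) (B n) * wt δ n)
      linarith
    · have hn0 : n = 0 := by
        rw [mem_Icc] at h1
        omega
      subst hn0
      have h3 := hA 0
      simp only [dv, if_true] at h3
      have h4 : A 0 = 0 := by
        rw [← norm_le_zero_iff]
        simpa [dv] using hA 0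
      rw [h4]
      simp
  have hw0 : ∀ n, 0 ≤ w n := fun n => (norm_nonneg _).trans (hdw n)
  have hwb : ∀ S : Finset ℕ, ∑ n ∈ S, w n ≤ 2 * ((N:ℝ) ^ (-δ) * (2 / δ) ^ (K ^ 2)) := by
    intro S
    have e : ∑ n ∈ S, w n = 2 * ∑ n ∈ S.filter (fun n => N < n), dv K n ^ 2 * (n:ℝ) ^ (-(2 * (1 / 2 + δ))) := by
      rw [sum_filter, mul_sum]
      refine sum_congr rfl fun n _ => ?_
      rw [hw]
      simp only
      split_ifs <;> ring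
    rw [e]
    refine mul_le_mul_of_nonneg_left ?_ (by norm_num)
    refine tail_sq (g := fun n => dv K n) (fun n => ?_) hN hδ hδ1 fun n hn => (mem_filter.mp hn).2.le
    rw [abs_of_nonneg (dv_nonneg (Nat.cast_nonneg K) n)]
  have hws : Summable w := summable_of_sum_le hw0 hwb
  rw [← hd.tsum_eq]
  refine (tsum_of_norm_bounded hws.hasSum hdw).trans ?_
  exact hws.tsum_le_of_sum_le hwb

lemma Dc_ext (A : ArithmeticFunction ℂ) {M₁ M : ℕ} (h : M₁ ≤ M) (hM : ∀ n : ℕ, M₁ < n → A n = 0) (s : ℂ) :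
    Dc A M s = Dc A M₁ s :=
  HasSum.unique (Dc_hasSum A M (fun n hn => hM n (by omega)) s) (Dc_hasSum A M₁ hM s)

lemma one_tw (c : ℝ) (n : ℕ) : ‖tw1 1 c n‖ ≤ dv ((1:ℕ):ℝ) n := tw1_le (by simp) c n

/-- truncated convolution -/
def Fk (N : ℕ) {k : ℕ} (a : Fin k → ℝ) : ArithmeticFunction ℂ := ∏ j, trC N (tw1 1 (a j))
/-- full convolution -/
def Tk {k : ℕ} (a : Fin k → ℝ) : ArithmeticFunction ℂ := ∏ j, tw1 1 (a j)

lemma Fk_le (N : ℕ) {k : ℕ} (a : Fin k → ℝ) (n : ℕ) : ‖Fk N a n‖ ≤ dv k n := by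
  have h := norm_prod_le' univ (fun j => trC N (tw1 1 (a j))) 1 (fun j _ n => trC_le N (one_tw (a j)) n) n
  rw [card_univ, Fintype.card_fin, mul_one] at h
  exact h

lemma Tk_le {k : ℕ} (a : Fin k → ℝ) (n : ℕ) : ‖Tk a n‖ ≤ dv k n := by
  have h := norm_prod_le' univ (fun j => tw1 1 (a j)) 1 (fun j _ n => one_tw (a j) n) n
  rw [card_univ, Fintype.card_fin, mul_one] at h
  exact h

lemma Fk_low {N n : ℕ} (hn : n ≤ N) {k : ℕ} (a : Fin k → ℝ) : Fk N a n = Tk a n :=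
  prod_low univ (fun j => tw1 1 (a j)) hn

lemma Fk_eval (N : ℕ) {k : ℕ} (a : Fin k → ℝ) (δ t : ℝ) : (∀ n : ℕ, N ^ k < n → Fk N a n = 0) ∧
    Dc (Fk N a) (N ^ k) (sp δ t) = ∏ j, Dy N 1 (sp δ (t + a j)) := by
  have h := Dc_prod univ (fun j => trC N (tw1 1 (a j))) N (fun j _ => trC_vanish N _) (sp δ t)
  rw [card_univ, Fintype.card_fin] at h
  refine ⟨h.1, ?_⟩
  have h2 := h.2
  simp_rw [Dc_shift] at h2
  exact h2

/-- the mean value of the product of the polynomials -/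
lemma mv_Y (N : ℕ) (hN : 1 ≤ N) {k l : ℕ} (a : Fin k → ℝ) (b : Fin l → ℝ) {δ T : ℝ} (hδ : 0 < δ) (hδ1 : δ ≤ 1) (hT : 0 ≤ T) :
    ‖(∫ t in (0:ℝ)..T, (∏ j, Dy N 1 (sp δ (t + a j))) * (starRingEnd ℂ) (∏ j, Dy N 1 (sp δ (t + b j)))) -
      (T:ℂ) * ∑' n : ℕ, Tk a n * (starRingEnd ℂ) (Tk b n) * wt δ n‖ ≤
      4 * (N:ℝ) ^ ((k + l + 1) * (2 * (k + l + 1) + 3)) + T * (2 * ((N:ℝ) ^ (-δ) * (2 / δ) ^ ((k + l + 1) ^ 2))) := by
  set K : ℕ := k + l + 1 with hK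
  set M : ℕ := N ^ K with hM
  have hkM : N ^ k ≤ M := Nat.pow_le_pow_right hN (by omega)
  have hlM : N ^ l ≤ M := Nat.pow_le_pow_right hN (by omega)
  have hNM : N ≤ M := by
    calc N = N ^ 1 := (pow_one N).symm
      _ ≤ M := Nat.pow_le_pow_right hN (by omega)
  have hFK : ∀ n, ‖Fk N a n‖ ≤ dv K n := fun n => (Fk_le N a n).trans (dv_mono (Nat.cast_nonneg k) (by exact_mod_cast (by omega : k ≤ K)) n)
  have hGK : ∀ n, ‖Fk N b n‖ ≤ dv K n := fun n => (Fk_le N b n).trans (dv_mono (Nat.cast_nonneg l) (by exact_mod_cast (by omega : l ≤ K)) n)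
  have hAK : ∀ n, ‖Tk a n‖ ≤ dv K n := fun n => (Tk_le a n).trans (dv_mono (Nat.cast_nonneg k) (by exact_mod_cast (by omega : k ≤ K)) n)
  have hBK : ∀ n, ‖Tk b n‖ ≤ dv K n := fun n => (Tk_le b n).trans (dv_mono (Nat.cast_nonneg l) (by exact_mod_cast (by omega : l ≤ K)) n)
  have e1 : ∀ t : ℝ, (∏ j, Dy N 1 (sp δ (t + a j))) * (starRingEnd ℂ) (∏ j, Dy N 1 (sp δ (t + b j))) =
      Dc (Fk N a) M (((1 / 2 + δ : ℝ) : ℂ) + (t : ℂ) * Complex.I) *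
        (starRingEnd ℂ) (Dc (Fk N b) M (((1 / 2 + δ : ℝ) : ℂ) + (t : ℂ) * Complex.I)) := by
    intro t
    obtain ⟨a1, a2⟩ := Fk_eval N a δ t
    obtain ⟨b1, b2⟩ := Fk_eval N b δ t
    rw [← a2, ← b2, Dc_ext _ hkM a1, Dc_ext _ hlM b1]
    rfl
  simp_rw [e1]
  have h1 := mvDC (fun n => Fk N a n) (fun n => Fk N b n) M (σ := 1 / 2 + δ) (by linarith) 0 T
  have h2 := diag_trunc hFK hGK hAK hBK hN hNM (fun n hn => Fk_low hn a) (fun n hn => Fk_low hn b) hδ hδ1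
  rw [sub_zero] at h1
  have h3 : 4 * (M:ℝ) * ((∑ n ∈ Icc 1 M, ‖Fk N a n‖) * ∑ n ∈ Icc 1 M, ‖Fk N b n‖) ≤ 4 * (N:ℝ) ^ (K * (2 * K + 3)) := by
    have g1 := l1_polyC hFK M
    have g2 := l1_polyC hGK M
    calc 4 * (M:ℝ) * ((∑ n ∈ Icc 1 M, ‖Fk N a n‖) * ∑ n ∈ Icc 1 M, ‖Fk N b n‖) ≤
        4 * (M:ℝ) * ((M:ℝ) ^ (K + 1) * (M:ℝ) ^ (K + 1)) := by gcongr
      _ = 4 * (M:ℝ) ^ (2 * K + 3) := by ring
      _ = _ := by rw [hM]; push_cast; rw [← pow_mul]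
  have h4 := h1.trans h3
  have e2 : ∑ n ∈ Icc 1 M, Fk N a n * (starRingEnd ℂ) (Fk N b n) * (((n:ℝ) ^ (-(2 * (1 / 2 + δ))) : ℝ) : ℂ) =
      ∑ n ∈ Icc 1 M, Fk N a n * (starRingEnd ℂ) (Fk N b n) * wt δ n := rfl
  rw [e2] at h4
  set S1 := ∑ n ∈ Icc 1 M, Fk N a n * (starRingEnd ℂ) (Fk N b n) * wt δ n with hS1
  set S2 := ∑' n : ℕ, Tk a n * (starRingEnd ℂ) (Tk b n) * wt δ n with hS2
  have h5 : ‖(T:ℂ) * S1 - (T:ℂ) * S2‖ ≤ T * (2 * ((N:ℝ) ^ (-δ) * (2 / δ) ^ (K ^ 2))) := by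
    rw [← mul_sub, norm_mul, Complex.norm_real, Real.norm_of_nonneg hT]
    exact mul_le_mul_of_nonneg_left h2 hT
  refine (norm_sub_le_norm_sub_add_norm_sub _ ((T:ℂ) * S1) _).trans (add_le_add ?_ h5)
  exact h4

lemma ms_one (N : ℕ) (c : ℝ) {δ T : ℝ} (hδ : 0 < δ) (hδ1 : δ ≤ 1) (hT : 0 ≤ T) :
    ∫ t in (0:ℝ)..T, ‖Dy N 1 (sp δ (t + c))‖ ^ 2 ≤ T * (2 / δ) + 4 * (N:ℝ) ^ 5 := by
  have h := msC (K := 1) (g := fun n => trC N (tw1 1 c) n) (fun n => by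
    have := trC_le N (one_tw c) n
    simpa using this) (M := N) hδ hδ1 0 T hT
  have e : ∀ t : ℝ, Dy N 1 (sp δ (t + c)) = Dc (fun n => trC N (tw1 1 c) n) N (((1 / 2 + δ : ℝ) : ℂ) + (t : ℂ) * Complex.I) :=
    fun t => (Dc_shift N 1 c δ t).symm
  simp_rw [e]
  simpa using h

lemma ms_prod (N : ℕ) (hN : 1 ≤ N) {k l : ℕ} (a : Fin k → ℝ) (b : Fin l → ℝ) {δ T : ℝ} (hδ : 0 < δ) (hδ1 : δ ≤ 1) (hT : 0 ≤ T) :
    ∫ t in (0:ℝ)..T, ‖(∏ j, Dy N 1 (sp δ (t + a j))) * (starRingEnd ℂ) (∏ j, Dy N 1 (sp δ (t + b j)))‖ ^ 2 ≤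
      T * (2 / δ) ^ ((k + l + 1) ^ 2) + 4 * (N:ℝ) ^ (2 * ((k + l + 1) * (2 * (k + l + 1) + 3))) := by
  set K : ℕ := k + l + 1 with hK
  have hFG : ∀ n, ‖(Fk N a * Fk N b) n‖ ≤ dv K n := by
    intro n
    have h := norm_mul_le' (A' := dA k) (B' := dA l) (Fk_le N a) (Fk_le N b) n
    rw [dA_mul] at h
    refine h.trans ?_
    have e : ((k:ℝ) + l) = ((k + l : ℕ) : ℝ) := by push_cast; ring
    rw [e]
    exact dv_mono (Nat.cast_nonneg _) (by exact_mod_cast (by omega : k + l ≤ K)) n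
  have h := msC (K := K) (g := fun n => (Fk N a * Fk N b) n) hFG (M := N ^ k * N ^ l) hδ hδ1 0 T hT
  have e : ∀ t : ℝ, ‖(∏ j, Dy N 1 (sp δ (t + a j))) * (starRingEnd ℂ) (∏ j, Dy N 1 (sp δ (t + b j)))‖ =
      ‖Dc (fun n => (Fk N a * Fk N b) n) (N ^ k * N ^ l) (((1 / 2 + δ : ℝ) : ℂ) + (t : ℂ) * Complex.I)‖ := by
    intro t
    obtain ⟨a1, a2⟩ := Fk_eval N a δ t
    obtain ⟨b1, b2⟩ := Fk_eval N b δ t
    have h3 := (Dc_mul (Fk N a) (Fk N b) (N ^ k) (N ^ l) a1 b1 (sp δ t)).2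
    rw [norm_mul, RCLike.norm_conj, ← a2, ← b2, ← norm_mul, ← h3]
    rfl
  simp_rw [e]
  refine h.trans ?_
  rw [sub_zero]
  have hN1 : (1:ℝ) ≤ N := by exact_mod_cast hN
  have h4 : (((N ^ k * N ^ l : ℕ)) : ℝ) ^ (2 * K + 3) ≤ (N:ℝ) ^ (2 * (K * (2 * K + 3))) := by
    push_cast
    rw [← pow_add, ← pow_mul]
    refine pow_le_pow_right₀ hN1 ?_
    have : k + l ≤ 2 * K := by omega
    calc (k + l) * (2 * K + 3) ≤ 2 * K * (2 * K + 3) := Nat.mul_le_mul_right _ this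
      _ = _ := by ring
  linarith

end

end Pool.Agent.Y746.CS
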