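import Pool.Agent.Y746.CS.Cx

set_option autoImplicit false

/-! Truncated shifted moments of the zeta function near the critical line: the theorem. -/

namespace Pool.Agent.Y746.CS

open MeasureTheory Finset Complex
open Pool.Agent.H306R2 Pool.Agent.Y746.OA

noncomputable section

/-- the final numerical estimate -/
lemma num1 {K D B : ℕ} {C1 L X V T s1 s2 s3 s4 Nq Nd : ℝ} (hT : 0 < T) (hC1 : 0 ≤ C1) (hL : 24 ≤ L)
    (hLc : 3 * K * C1 + 9 * K + 5 ≤ L) (hX1 : 1 ≤ X)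
    (hXP : L ^ (2 * D + 2 * B + 6) ≤ X) (hV : 2 ≤ V) (hVA : L ^ (D + 2 * B + 5) ≤ V) (hVX : V ^ (2 * K + 1) ≤ X)
    (hNq : Nq ≤ T * (X ^ 16)⁻¹) (hNd : Nd ≤ (X ^ 16)⁻¹)
    (h1 : s1 ≤ K * (C1 * (X ^ 16)⁻¹ * (T * L)))
    (h2 : s2 ≤ T * L ^ D + Nq) (h3 : s3 ≤ K * (T * L + Nq)) (h4 : s4 ≤ Nq + T * (2 * (Nd * L ^ D)))
    (hs1 : 0 ≤ s1) (hs2 : 0 ≤ s2) (hs3 : 0 ≤ s3) :
    (V + 1) ^ K * (K * (X ^ 2)⁻¹) * T + ((V + 1) ^ K / (X ^ 2)⁻¹ + V ^ K + 1 / (L ^ (D + B + 2))⁻¹) * s1 +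
      (L ^ (D + B + 2))⁻¹ * s2 + 4 / ((L ^ (D + B + 2))⁻¹ * V ^ 2) * s3 + s4 ≤ T / L ^ B ∧
    s1 + 4 / V ^ 2 * s3 ≤ T / L ^ B := by
  have hL0 : 0 < L := by linarith
  have hL1 : 1 ≤ L := by linarith
  have hX0 : 0 < X := by linarith
  have hV0 : 0 < V := by linarith
  have hV1 : 1 ≤ V := by linarith
  have hLX : ∀ n : ℕ, n ≤ 2 * D + 2 * B + 6 → L ^ n ≤ X := fun n hn => (pow_le_pow_right₀ hL1 hn).trans hXP
  have hLX1 : L ≤ X := by have := hLX 1 (by omega); rwa [pow_one] at this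
  set q := L ^ (B + 1) with hq
  have hq0 : 0 < q := by positivity
  have hXq : X⁻¹ ≤ q⁻¹ := inv_anti₀ hq0 (hLX _ (by omega))
  have hK0 : (0:ℝ) ≤ K := Nat.cast_nonneg K
  have hXi0 : 0 ≤ (X ^ 16)⁻¹ := by positivity
  have hX16 : (X ^ 16)⁻¹ ≤ 1 := inv_le_one_of_one_le₀ (one_le_pow₀ hX1)
  have hNqT : Nq ≤ T := hNq.trans (mul_le_of_le_one_right hT.le hX16)
  have hVK : (V + 1) ^ K ≤ X := by
    have h5 : V + 1 ≤ V ^ 2 := by nlinarith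
    calc (V + 1) ^ K ≤ (V ^ 2) ^ K := pow_le_pow_left₀ (by linarith) h5 K
      _ = V ^ (2 * K) := by rw [← pow_mul]
      _ ≤ V ^ (2 * K + 1) := pow_le_pow_right₀ hV1 (by omega)
      _ ≤ X := hVX
  have hVK2 : V ^ K ≤ X := (pow_le_pow_right₀ hV1 (by omega : K ≤ 2 * K + 1)).trans hVX
  -- the first term
  have t1 : (V + 1) ^ K * (K * (X ^ 2)⁻¹) * T ≤ K * T * q⁻¹ := by
    calc (V + 1) ^ K * (K * (X ^ 2)⁻¹) * T ≤ X * (K * (X ^ 2)⁻¹) * T := by gcongr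
      _ = K * T * X⁻¹ := by field_simp
      _ ≤ K * T * q⁻¹ := by gcongr
  -- the second
  have hLE : L ^ (D + B + 2) ≤ X := hLX _ (by omega)
  have t2 : ((V + 1) ^ K / (X ^ 2)⁻¹ + V ^ K + 1 / (L ^ (D + B + 2))⁻¹) * s1 ≤ 3 * K * C1 * T * q⁻¹ := by
    have e1 : (V + 1) ^ K / (X ^ 2)⁻¹ + V ^ K + 1 / (L ^ (D + B + 2))⁻¹ ≤ 3 * X ^ 3 := by
      have g1 : (V + 1) ^ K / (X ^ 2)⁻¹ ≤ X ^ 3 := by
        rw [div_inv_eq_mul]
        calc (V + 1) ^ K * X ^ 2 ≤ X * X ^ 2 := by gcongr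
          _ = X ^ 3 := by ring
      have g2 : X ≤ X ^ 3 := le_self_pow₀ hX1 (by norm_num)
      have g3 : 1 / (L ^ (D + B + 2))⁻¹ ≤ X ^ 3 := by
        rw [one_div, inv_inv]; linarith
      linarith
    calc ((V + 1) ^ K / (X ^ 2)⁻¹ + V ^ K + 1 / (L ^ (D + B + 2))⁻¹) * s1 ≤
        3 * X ^ 3 * (K * (C1 * (X ^ 16)⁻¹ * (T * X))) := by
          refine mul_le_mul e1 (h1.trans ?_) hs1 (by positivity)
          gcongr
      _ = 3 * K * C1 * T * (X⁻¹ * (X ^ 11)⁻¹) := by field_simp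
      _ ≤ 3 * K * C1 * T * (X⁻¹ * 1) := by
          gcongr
          exact inv_le_one_of_one_le₀ (one_le_pow₀ hX1)
      _ ≤ 3 * K * C1 * T * q⁻¹ := by rw [mul_one]; gcongr
  -- the third
  have t3 : (L ^ (D + B + 2))⁻¹ * s2 ≤ 2 * T * q⁻¹ := by
    calc (L ^ (D + B + 2))⁻¹ * s2 ≤ (L ^ (D + B + 2))⁻¹ * (T * L ^ D + T) := by
          gcongr; linarith
      _ ≤ (L ^ (D + B + 2))⁻¹ * (T * L ^ D + T * L ^ D) := by
          gcongr
          exact le_mul_of_one_le_right hT.le (one_le_pow₀ hL1)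
      _ = 2 * T * (q⁻¹ * L⁻¹) := by
          rw [hq]; field_simp; ring
      _ ≤ 2 * T * (q⁻¹ * 1) := by
          gcongr
          exact inv_le_one_of_one_le₀ hL1
      _ = _ := by ring
  -- the fourth
  have hs3' : s3 ≤ 2 * K * T * L := by
    refine h3.trans ?_
    have : T ≤ T * L := le_mul_of_one_le_right hT.le hL1
    nlinarith
  have t4 : 4 / ((L ^ (D + B + 2))⁻¹ * V ^ 2) * s3 ≤ 8 * K * T * q⁻¹ := by
    have g1 : L ^ (D + 2 * B + 5) ≤ V ^ 2 := hVA.trans (le_self_pow₀ hV1 (by norm_num))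
    calc 4 / ((L ^ (D + B + 2))⁻¹ * V ^ 2) * s3 ≤ 4 / ((L ^ (D + B + 2))⁻¹ * L ^ (D + 2 * B + 5)) * (2 * K * T * L) := by
          gcongr
      _ = 8 * K * T * (q⁻¹ * L⁻¹) := by
          rw [hq]; field_simp; ring
      _ ≤ 8 * K * T * (q⁻¹ * 1) := by
          gcongr
          exact inv_le_one_of_one_le₀ hL1
      _ = _ := by ring
  have t5 : s4 ≤ 3 * T * q⁻¹ := by
    have g1 : (X ^ 16)⁻¹ ≤ q⁻¹ := by
      refine le_trans ?_ hXq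
      exact inv_anti₀ hX0 (le_self_pow₀ hX1 (by norm_num))
    have g2 : (X ^ 16)⁻¹ * L ^ D ≤ q⁻¹ := by
      calc (X ^ 16)⁻¹ * L ^ D ≤ (X ^ 16)⁻¹ * X := by
            gcongr
            exact hLX _ (by omega)
        _ = X⁻¹ * (X ^ 14)⁻¹ := by field_simp
        _ ≤ X⁻¹ * 1 := by
            gcongr
            exact inv_le_one_of_one_le₀ (one_le_pow₀ hX1)
        _ ≤ q⁻¹ := by rw [mul_one]; exact hXq
    calc s4 ≤ Nq + T * (2 * (Nd * L ^ D)) := h4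
      _ ≤ T * (X ^ 16)⁻¹ + T * (2 * ((X ^ 16)⁻¹ * L ^ D)) := by gcongr
      _ ≤ T * q⁻¹ + T * (2 * q⁻¹) := by gcongr
      _ = _ := by ring
  have hfin : (3 * K * C1 + 9 * K + 5) * T * q⁻¹ ≤ T / L ^ B := by
    calc (3 * K * C1 + 9 * K + 5) * T * q⁻¹ ≤ L * T * q⁻¹ := by gcongr
      _ = T / L ^ B := by rw [hq, pow_succ]; field_simp
  constructor
  · have : (V + 1) ^ K * (K * (X ^ 2)⁻¹) * T + ((V + 1) ^ K / (X ^ 2)⁻¹ + V ^ K + 1 / (L ^ (D + B + 2))⁻¹) * s1 +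
      (L ^ (D + B + 2))⁻¹ * s2 + 4 / ((L ^ (D + B + 2))⁻¹ * V ^ 2) * s3 + s4 ≤ (3 * K * C1 + 9 * K + 5) * T * q⁻¹ := by
      linarith
    exact this.trans hfin
  · have g1 : s1 ≤ ((V + 1) ^ K / (X ^ 2)⁻¹ + V ^ K + 1 / (L ^ (D + B + 2))⁻¹) * s1 := by
      refine le_mul_of_one_le_left hs1 ?_
      have : 1 ≤ V ^ K := one_le_pow₀ hV1
      have h5 : 0 ≤ (V + 1) ^ K / (X ^ 2)⁻¹ := by positivity
      have h6 : 0 ≤ 1 / (L ^ (D + B + 2))⁻¹ := by positivity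
      linarith
    have g2 : 4 / V ^ 2 * s3 ≤ 4 / ((L ^ (D + B + 2))⁻¹ * V ^ 2) * s3 := by
      refine mul_le_mul_of_nonneg_right ?_ hs3
      refine div_le_div_of_nonneg_left (by norm_num) (by positivity) ?_
      refine mul_le_of_le_one_left (by positivity) ?_
      exact inv_le_one_of_one_le₀ (one_le_pow₀ hL1)
    have g3 : 0 ≤ (5 + K) * T * q⁻¹ := by positivity
    have : s1 + 4 / V ^ 2 * s3 ≤ (3 * K * C1 + 9 * K + 5) * T * q⁻¹ := by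
      have e : (3 * K * C1 + 9 * K + 5) * T * q⁻¹ = 3 * K * C1 * T * q⁻¹ + 8 * K * T * q⁻¹ + (5 + K) * T * q⁻¹ := by ring
      linarith
    exact this.trans hfin

/-- truncated shifted moments -/
theorem cx (k l : ℕ) : ∃ c : ℝ, 0 < c ∧ ∀ B : ℕ, ∃ (A : ℕ) (C T0 : ℝ), 0 < C ∧ ∀ T : ℝ, T0 ≤ T → ∀ δ : ℝ,
    C * Real.log (Real.log T) / Real.log T ≤ δ → δ ≤ 1 / 16 → ∀ V : ℝ, Real.log T ^ A ≤ V → V ≤ T ^ (c * δ) →
    ∀ (a : Fin k → ℝ) (b : Fin l → ℝ), (∀ j, |a j| ≤ T) → (∀ j, |b j| ≤ T) →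
    ‖(∫ t in {t | t ∈ Set.Ioc 0 T ∧ (∀ j, ‖riemannZeta (sp δ (t + a j))‖ ≤ V) ∧ ∀ j, ‖riemannZeta (sp δ (t + b j))‖ ≤ V},
        (∏ j, riemannZeta (sp δ (t + a j))) * (starRingEnd ℂ) (∏ j, riemannZeta (sp δ (t + b j)))) -
      (T:ℂ) * ∑' n : ℕ, Tk a n * (starRingEnd ℂ) (Tk b n) * wt δ n‖ ≤ T / Real.log T ^ B ∧
    (volume {t | t ∈ Set.Ioc 0 T ∧ ¬ ((∀ j, ‖riemannZeta (sp δ (t + a j))‖ ≤ V) ∧
      ∀ j, ‖riemannZeta (sp δ (t + b j))‖ ≤ V)}).toReal ≤ T / Real.log T ^ B := by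
  set K : ℕ := k + l with hK
  set D : ℕ := (k + l + 1) ^ 2 with hD
  set Q : ℕ := 2 * ((k + l + 1) * (2 * (k + l + 1) + 3)) + 6 with hQ
  obtain ⟨C1, T1, hC1, hT1, hz⟩ := zeta_ms_shift
  have hR1 : 1 ≤ 2 * K + 1 := by omega
  refine ⟨1 / (64 * Q * (2 * K + 1 : ℕ)), by positivity, fun B => ?_⟩
  obtain ⟨C, T0, hC, hpar⟩ := par Q (2 * D + 2 * B + 6) (2 * K + 1) (by omega) hR1 (max T1 (3 * K * C1 + 9 * K + 5))
  refine ⟨D + 2 * B + 5, C, T0, hC, fun T hT δ hδ hδ1 V hV1 hV2 a b ha hb => ?_⟩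
  obtain ⟨hT4, hL24, hLL0, hTT0, hδ0, h2δ, h1L, N, X, hN1, hN3, hX1, hNQ, hNδ, hN2δ, hXP, hVX⟩ := hpar T hT δ hδ hδ1
  have hTp : 0 < T := by linarith
  set L := Real.log T with hL
  have hL1 : 1 ≤ L := by linarith
  have hL0 : 0 < L := by linarith
  have hV2' : 2 ≤ V := by
    have h1 : L ^ 1 ≤ L ^ (D + 2 * B + 5) := pow_le_pow_right₀ hL1 (by omega)
    rw [pow_one] at h1
    linarith
  have hVX' : V ^ (2 * K + 1) ≤ X := by
    refine hVX V (by linarith) (hV2.trans (le_of_eq ?_))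
    congr 1
    ring
  have hN1r : (1:ℝ) ≤ N := by exact_mod_cast hN1
  -- the functions
  set Xf : Fin k ⊕ Fin l → ℝ → ℂ := Sum.elim (fun j t => riemannZeta (sp δ (t + a j)))
    (fun j t => (starRingEnd ℂ) (riemannZeta (sp δ (t + b j)))) with hXf
  set Yf : Fin k ⊕ Fin l → ℝ → ℂ := Sum.elim (fun j t => Dy N 1 (sp δ (t + a j)))
    (fun j t => (starRingEnd ℂ) (Dy N 1 (sp δ (t + b j)))) with hYf
  have cz : ∀ c : ℝ, Continuous fun t => riemannZeta (sp δ (t + c)) := fun c =>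
    (zeta_sp_cont hδ1).comp (continuous_id.add continuous_const)
  have cd : ∀ c : ℝ, Continuous fun t => Dy N 1 (sp δ (t + c)) := fun c =>
    (Dy_cont N 1 δ).comp (continuous_id.add continuous_const)
  have cX : ∀ i, Continuous (Xf i) := by
    rintro (j | j)
    · exact cz (a j)
    · exact Complex.continuous_conj.comp (cz (b j))
  have cY : ∀ i, Continuous (Yf i) := by
    rintro (j | j)
    · exact cd (a j)
    · exact Complex.continuous_conj.comp (cd (b j))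
  have eX : ∀ t, ∏ i, Xf i t = (∏ j, riemannZeta (sp δ (t + a j))) * (starRingEnd ℂ) (∏ j, riemannZeta (sp δ (t + b j))) := by
    intro t
    rw [Fintype.prod_sum_type, map_prod]
    rfl
  have eY : ∀ t, ∏ i, Yf i t = (∏ j, Dy N 1 (sp δ (t + a j))) * (starRingEnd ℂ) (∏ j, Dy N 1 (sp δ (t + b j))) := by
    intro t
    rw [Fintype.prod_sum_type, map_prod]
    rfl
  have hset : ∀ t, (∀ i, ‖Xf i t‖ ≤ V) ↔ ((∀ j, ‖riemannZeta (sp δ (t + a j))‖ ≤ V) ∧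
      ∀ j, ‖riemannZeta (sp δ (t + b j))‖ ≤ V) := by
    intro t
    rw [Sum.forall]
    refine and_congr Iff.rfl (forall_congr' fun j => ?_)
    show ‖(starRingEnd ℂ) (riemannZeta (sp δ (t + b j)))‖ ≤ V ↔ _
    rw [RCLike.norm_conj]
  have hcard : Fintype.card (Fin k ⊕ Fin l) = K := by simp [hK]
  have hi := int1 Xf Yf cX cY hV2' (κ := (X ^ 2)⁻¹) (η := (L ^ (D + B + 2))⁻¹) (T := T) (by positivity) (by positivity) hTp.le
  have hm := meas1 Xf Yf cX cY hV2' hTp.le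
  simp_rw [hset, eX, eY, hcard] at hi
  simp_rw [hset] at hm
  -- the mean squares
  set s1 := ∑ i, ∫ t in (0:ℝ)..T, ‖Xf i t - Yf i t‖ ^ 2 with hs1
  set s3 := ∑ i, ∫ t in (0:ℝ)..T, ‖Yf i t‖ ^ 2 with hs3
  set s2 := ∫ t in (0:ℝ)..T, ‖(∏ j, Dy N 1 (sp δ (t + a j))) * (starRingEnd ℂ) (∏ j, Dy N 1 (sp δ (t + b j)))‖ ^ 2 with hs2
  have hs1b : s1 ≤ K * (C1 * (X ^ 16)⁻¹ * (T * L)) := by
    have h1 : ∀ i, ∫ t in (0:ℝ)..T, ‖Xf i t - Yf i t‖ ^ 2 ≤ C1 * (X ^ 16)⁻¹ * (T * L) := by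
      have h2 : ∀ c : ℝ, |c| ≤ T → ∫ t in (0:ℝ)..T, ‖riemannZeta (sp δ (t + c)) - Dy N 1 (sp δ (t + c))‖ ^ 2 ≤
          C1 * (X ^ 16)⁻¹ * (T * L) := by
        intro c hc
        refine (hz T ((le_max_left _ _).trans hTT0) N hN1 hN3 δ h1L hδ1 c hc).trans ?_
        gcongr
      rintro (j | j)
      · exact h2 (a j) (ha j)
      · have h3 : ∀ t, ‖Xf (Sum.inr j) t - Yf (Sum.inr j) t‖ = ‖riemannZeta (sp δ (t + b j)) - Dy N 1 (sp δ (t + b j))‖ := by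
          intro t
          show ‖(starRingEnd ℂ) (riemannZeta (sp δ (t + b j))) - (starRingEnd ℂ) (Dy N 1 (sp δ (t + b j)))‖ = _
          rw [← map_sub, RCLike.norm_conj]
        simp_rw [h3]
        exact h2 (b j) (hb j)
    refine (sum_le_sum fun i _ => h1 i).trans (le_of_eq ?_)
    rw [sum_const, card_univ, hcard, nsmul_eq_mul]
  have hpowN : ∀ n : ℕ, n ≤ Q → (N:ℝ) ^ n ≤ (N:ℝ) ^ Q := fun n hn => pow_le_pow_right₀ hN1r hn
  have hδL : ∀ n : ℕ, (2 / δ) ^ n ≤ L ^ n := fun n => pow_le_pow_left₀ (by positivity) h2δ n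
  have hs3b : s3 ≤ K * (T * L + 4 * (N:ℝ) ^ Q) := by
    have h1 : ∀ i, ∫ t in (0:ℝ)..T, ‖Yf i t‖ ^ 2 ≤ T * L + 4 * (N:ℝ) ^ Q := by
      have h2 : ∀ c : ℝ, ∫ t in (0:ℝ)..T, ‖Dy N 1 (sp δ (t + c))‖ ^ 2 ≤ T * L + 4 * (N:ℝ) ^ Q := by
        intro c
        refine (ms_one N c hδ0 (by linarith) hTp.le).trans ?_
        have := hpowN 5 (by omega)
        gcongr
      rintro (j | j)
      · exact h2 (a j)
      · have h3 : ∀ t, ‖Yf (Sum.inr j) t‖ = ‖Dy N 1 (sp δ (t + b j))‖ := by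
          intro t
          show ‖(starRingEnd ℂ) (Dy N 1 (sp δ (t + b j)))‖ = _
          rw [RCLike.norm_conj]
        simp_rw [h3]
        exact h2 (b j)
    refine (sum_le_sum fun i _ => h1 i).trans (le_of_eq ?_)
    rw [sum_const, card_univ, hcard, nsmul_eq_mul]
  have hs2b : s2 ≤ T * L ^ D + 4 * (N:ℝ) ^ Q := by
    refine (ms_prod N hN1 a b hδ0 (by linarith) hTp.le).trans ?_
    have h1 := hpowN (2 * ((k + l + 1) * (2 * (k + l + 1) + 3))) (by omega)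
    have h2 := hδL D
    rw [← hD]
    gcongr
  have hs10 : 0 ≤ s1 := sum_nonneg fun i _ => intervalIntegral.integral_nonneg hTp.le fun t _ => by positivity
  have hs20 : 0 ≤ s2 := intervalIntegral.integral_nonneg hTp.le fun t _ => by positivity
  have hs30 : 0 ≤ s3 := sum_nonneg fun i _ => intervalIntegral.integral_nonneg hTp.le fun t _ => by positivity
  have hmv := mv_Y N hN1 a b hδ0 (by linarith) hTp.le
  set s4 := ‖(∫ t in (0:ℝ)..T, (∏ j, Dy N 1 (sp δ (t + a j))) * (starRingEnd ℂ) (∏ j, Dy N 1 (sp δ (t + b j)))) -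
      (T:ℂ) * ∑' n : ℕ, Tk a n * (starRingEnd ℂ) (Tk b n) * wt δ n‖ with hs4
  have hs4b : s4 ≤ 4 * (N:ℝ) ^ Q + T * (2 * ((N:ℝ) ^ (-δ) * L ^ D)) := by
    refine hmv.trans ?_
    have h1 := hpowN ((k + l + 1) * (2 * (k + l + 1) + 3)) (by omega)
    have h2 := hδL D
    rw [← hD]
    gcongr
  obtain ⟨f1, f2⟩ := num1 hTp hC1.le hL24 ((le_max_right _ _).trans hLL0) hX1 hXP hV2' hV1 hVX' hNQ hNδ hs1b hs2b hs3b hs4b
    hs10 hs20 hs30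
  refine ⟨?_, hm.trans f2⟩
  refine (norm_sub_le_norm_sub_add_norm_sub _ (∫ t in (0:ℝ)..T, (∏ j, Dy N 1 (sp δ (t + a j))) *
    (starRingEnd ℂ) (∏ j, Dy N 1 (sp δ (t + b j)))) _).trans (le_trans ?_ f1)
  exact add_le_add hi le_rfl

end

end Pool.Agent.Y746.CS
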