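import Pool.Agent.Y746.CS.Rx2

set_option autoImplicit false

/-! Real exponents: the theorem. -/

namespace Pool.Agent.Y746.CS

open MeasureTheory Finset Filter
open Pool.Agent.H306R2 Pool.Agent.Y746.OA

noncomputable section

lemma rho_bd {b L X : ℝ} {n : ℕ} (hb : 1 ≤ b) (hL : 1 ≤ L) (hX : 1 ≤ X) (hXL : Real.log (2 * X) ≤ 2 * L)
    (hn : L ^ n ≤ X) (hexp : L ^ (n + 1) * Real.exp (-(L / 2)) ≤ 1) :
    rho b X ((X ^ 3)⁻¹) ⌈L⌉₊ ≤ 28 * (b + 1) / L ^ n := by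
  have hL0 : 0 < L := by linarith
  have hX0 : 0 < X := by linarith
  have hq0 : 0 < L ^ n := by positivity
  unfold rho
  have r0 : 0 ≤ Real.log (2 * X) := Real.log_nonneg (by linarith)
  have r2 : (1 / 2 : ℝ) ^ ⌈L⌉₊ ≤ Real.exp (-(L / 2)) := by
    have h2 : (1 / 2 : ℝ) ≤ Real.exp (-(1 / 2)) := by
      have := Real.add_one_le_exp (-(1 / 2) : ℝ)
      linarith
    calc (1 / 2 : ℝ) ^ ⌈L⌉₊ ≤ (Real.exp (-(1 / 2))) ^ ⌈L⌉₊ := pow_le_pow_left₀ (by norm_num) h2 _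
      _ = Real.exp ((⌈L⌉₊ : ℝ) * (-(1 / 2))) := by rw [Real.exp_nat_mul]
      _ ≤ _ := Real.exp_le_exp.mpr (by have := Nat.le_ceil L; linarith)
  have r3 : (1 / 2 : ℝ) ^ ⌈L⌉₊ * (2 * Real.log (2 * X)) ≤ 4 / L ^ n := by
    calc (1 / 2 : ℝ) ^ ⌈L⌉₊ * (2 * Real.log (2 * X)) ≤ Real.exp (-(L / 2)) * (2 * (2 * L)) := by gcongr
      _ ≤ 4 / L ^ n := by
        rw [le_div_iff₀ hq0]
        have : Real.exp (-(L / 2)) * (2 * (2 * L)) * L ^ n = 4 * (L ^ (n + 1) * Real.exp (-(L / 2))) := by ring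
        rw [this]
        linarith
  have r4 : 3 * (8 * X ^ 2 * (X ^ 3)⁻¹) ≤ 24 / L ^ n := by
    have e1 : 3 * (8 * X ^ 2 * (X ^ 3)⁻¹) = 24 / X := by field_simp; norm_num
    rw [e1]
    exact div_le_div_of_nonneg_left (by norm_num) hq0 hn
  calc (b + 1) * ((1 / 2) ^ ⌈L⌉₊ * (2 * Real.log (2 * X)) + 3 * (8 * X ^ 2 * (X ^ 3)⁻¹)) ≤
      (b + 1) * (4 / L ^ n + 24 / L ^ n) :=
        mul_le_mul_of_nonneg_left (add_le_add r3 r4) (by linarith)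
    _ = _ := by ring

lemma ev_exp (n : ℕ) : ∃ L0 : ℝ, ∀ L : ℝ, L0 ≤ L → L ^ n * Real.exp (-(L / 2)) ≤ 1 := by
  have h1 : Tendsto (fun L : ℝ => L ^ n * Real.exp (-(L / 2))) atTop (nhds 0) := by
    have h2 := (Real.tendsto_pow_mul_exp_neg_atTop_nhds_zero n).comp
      (tendsto_id.atTop_div_const (by norm_num : (0:ℝ) < 2))
    have h3 := h2.const_mul ((2:ℝ) ^ n)
    rw [mul_zero] at h3
    refine h3.congr fun L => ?_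
    simp only [Function.comp, id]
    rw [div_pow]
    field_simp
  exact eventually_atTop.mp (h1.eventually (ge_mem_nhds (show (0:ℝ) < 1 by norm_num)))

/-- the final numerical estimate -/
lemma num2 {r D B : ℕ} {C1 L X T s1 s2 s3 s4 Nq Nd G κ VB : ℝ} (hT : 0 < T) (hC1 : 0 ≤ C1) (hG : 0 ≤ G) (hL : 24 ≤ L)
    (hLc : 2 * 6 ^ r * G + 2 * r * (180 + C1) + 5 ≤ L) (hX1 : 1 ≤ X) (hκ : κ = G / L ^ (D + B + 2))
    (hXP : L ^ (D + B + 6) ≤ X) (hVB : VB ≤ X)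
    (hNq : Nq ≤ T * (X ^ 16)⁻¹) (hNd : Nd ≤ (X ^ 16)⁻¹)
    (h1 : s1 ≤ 3 ^ r * (T * L ^ D + Nq))
    (h2 : s2 ≤ r * (T * ((180 + C1) * L ^ (D + 2) * (X ^ 2)⁻¹)))
    (h3 : s3 ≤ T * L ^ D + Nq) (h4 : s4 ≤ Nq + T * (2 * (Nd * L ^ D))) (hs2 : 0 ≤ s2) :
    κ * (2 ^ r * s1) + (VB + 1 / (L ^ (D + B + 2))⁻¹) * s2 + (L ^ (D + B + 2))⁻¹ * s3 + s4 ≤ T / L ^ B := by
  have hL0 : 0 < L := by linarith
  have hL1 : 1 ≤ L := by linarith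
  have hX0 : 0 < X := by linarith
  have hLX : ∀ n : ℕ, n ≤ D + B + 6 → L ^ n ≤ X := fun n hn => (pow_le_pow_right₀ hL1 hn).trans hXP
  set q := L ^ (B + 1) with hq
  have hq0 : 0 < q := by positivity
  have hXq : X⁻¹ ≤ q⁻¹ := inv_anti₀ hq0 (hLX _ (by omega))
  have hXi0 : 0 ≤ (X ^ 16)⁻¹ := by positivity
  have hX16 : (X ^ 16)⁻¹ ≤ 1 := inv_le_one_of_one_le₀ (one_le_pow₀ hX1)
  have hTL : T ≤ T * L ^ D := le_mul_of_one_le_right hT.le (one_le_pow₀ hL1)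
  have hNqT : Nq ≤ T * L ^ D := (hNq.trans (mul_le_of_le_one_right hT.le hX16)).trans hTL
  have hLi : L⁻¹ ≤ 1 := inv_le_one_of_one_le₀ hL1
  have hr0 : (0:ℝ) ≤ r := Nat.cast_nonneg r
  -- first
  have t1 : κ * (2 ^ r * s1) ≤ 2 * 6 ^ r * G * T * q⁻¹ := by
    have h5 : s1 ≤ 3 ^ r * (2 * (T * L ^ D)) := h1.trans (mul_le_mul_of_nonneg_left (by linarith) (by positivity))
    calc κ * (2 ^ r * s1) ≤ G / L ^ (D + B + 2) * (2 ^ r * (3 ^ r * (2 * (T * L ^ D)))) := by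
          rw [hκ]
          gcongr
      _ = 2 * 6 ^ r * G * T * (q⁻¹ * L⁻¹) := by
          rw [hq, show (6:ℝ) = 2 * 3 by norm_num, mul_pow]; field_simp; ring
      _ ≤ 2 * 6 ^ r * G * T * (q⁻¹ * 1) := by gcongr
      _ = _ := by ring
  -- second
  have hLE : L ^ (D + B + 2) ≤ X := hLX _ (by omega)
  have t2 : (VB + 1 / (L ^ (D + B + 2))⁻¹) * s2 ≤ 2 * r * (180 + C1) * T * q⁻¹ := by
    have e1 : VB + 1 / (L ^ (D + B + 2))⁻¹ ≤ 2 * X := by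
      rw [one_div, inv_inv]; linarith
    have e2 : L ^ (D + 2) * X⁻¹ ≤ q⁻¹ := by
      rw [← div_eq_mul_inv, div_le_iff₀ hX0, inv_mul_eq_div, le_div_iff₀ hq0, hq, ← pow_add]
      exact hLX _ (by omega)
    calc (VB + 1 / (L ^ (D + B + 2))⁻¹) * s2 ≤ 2 * X * (r * (T * ((180 + C1) * L ^ (D + 2) * (X ^ 2)⁻¹))) :=
          mul_le_mul e1 h2 hs2 (by positivity)
      _ = 2 * r * (180 + C1) * T * (L ^ (D + 2) * X⁻¹) := by field_simp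
      _ ≤ _ := by gcongr
  have t3 : (L ^ (D + B + 2))⁻¹ * s3 ≤ 2 * T * q⁻¹ := by
    calc (L ^ (D + B + 2))⁻¹ * s3 ≤ (L ^ (D + B + 2))⁻¹ * (T * L ^ D + T * L ^ D) := by
          gcongr; linarith
      _ = 2 * T * (q⁻¹ * L⁻¹) := by
          rw [hq]; field_simp; ring
      _ ≤ 2 * T * (q⁻¹ * 1) := by gcongr
      _ = _ := by ring
  have t5 : s4 ≤ 3 * T * q⁻¹ := by
    have g1 : (X ^ 16)⁻¹ ≤ q⁻¹ := by
      refine le_trans ?_ hXq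
      exact inv_anti₀ hX0 (le_self_pow₀ hX1 (by norm_num))
    have g2 : (X ^ 16)⁻¹ * L ^ D ≤ q⁻¹ := by
      calc (X ^ 16)⁻¹ * L ^ D ≤ (X ^ 16)⁻¹ * X := by
            gcongr
            exact hLX _ (by omega)
        _ = X⁻¹ * (X ^ 14)⁻¹ := by field_simp
        _ ≤ X⁻¹ * 1 := by
            gcongr
            exact inv_le_one_of_one_le₀ (one_le_pow₀ hX1)
        _ ≤ q⁻¹ := by rw [mul_one]; exact hXq
    calc s4 ≤ Nq + T * (2 * (Nd * L ^ D)) := h4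
      _ ≤ T * (X ^ 16)⁻¹ + T * (2 * ((X ^ 16)⁻¹ * L ^ D)) := by gcongr
      _ ≤ T * q⁻¹ + T * (2 * q⁻¹) := by gcongr
      _ = _ := by ring
  have hfin : (2 * 6 ^ r * G + 2 * r * (180 + C1) + 5) * T * q⁻¹ ≤ T / L ^ B := by
    calc (2 * 6 ^ r * G + 2 * r * (180 + C1) + 5) * T * q⁻¹ ≤ L * T * q⁻¹ := by gcongr
      _ = T / L ^ B := by rw [hq, pow_succ]; field_simp
  have hsum : κ * (2 ^ r * s1) + (VB + 1 / (L ^ (D + B + 2))⁻¹) * s2 + (L ^ (D + B + 2))⁻¹ * s3 + s4 ≤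
      (2 * 6 ^ r * G + 2 * r * (180 + C1) + 5) * T * q⁻¹ := by
    have e : (2 * 6 ^ r * G + 2 * r * (180 + C1) + 5) * T * q⁻¹ =
      2 * 6 ^ r * G * T * q⁻¹ + 2 * r * (180 + C1) * T * q⁻¹ + 2 * T * q⁻¹ + 3 * T * q⁻¹ := by ring
    linarith
  exact hsum.trans hfin

/-- the cost is small -/
lemma Rt_num {D : ℕ} {C1 L X T NE Nq Nd Z : ℝ} (hT : 0 < T) (hC1 : 0 ≤ C1) (hL : 24 ≤ L) (hX1 : 1 ≤ X)
    (hE0 : 0 ≤ NE) (hE : NE ≤ 9 * L) {d : ℝ} (hd0 : 0 ≤ d) (hd : d ≤ L ^ D) (hNq0 : 0 ≤ Nq)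
    (hNq : Nq ≤ T * (X ^ 16)⁻¹) (hNd0 : 0 ≤ Nd) (hNd : Nd ≤ (X ^ 16)⁻¹) (hZ : Z ≤ C1 * (X ^ 16)⁻¹ * (T * L)) :
    NE * (NE * ((T * (Nd * d) + Nq) / ((X ^ 3)⁻¹) ^ 2)) + NE * ((T * d + Nq) / X ^ 2) + Z / ((X ^ 3)⁻¹) ^ 2 ≤
      T * ((180 + C1) * L ^ (D + 2) * (X ^ 2)⁻¹) := by
  have hL0 : 0 < L := by linarith
  have hL1 : 1 ≤ L := by linarith
  have hX0 : 0 < X := by linarith
  have hH1 : 1 ≤ L ^ D := one_le_pow₀ hL1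
  set H := L ^ D with hH
  have hXi0 : 0 ≤ (X ^ 16)⁻¹ := by positivity
  have hX16 : (X ^ 16)⁻¹ ≤ 1 := inv_le_one_of_one_le₀ (one_le_pow₀ hX1)
  have hX10 : (X ^ 10)⁻¹ ≤ (X ^ 2)⁻¹ := inv_anti₀ (by positivity) (pow_le_pow_right₀ hX1 (by norm_num))
  have hHL0 : 0 ≤ H * L ^ 2 := by positivity
  have a1 : T * (Nd * d) + Nq ≤ T * (2 * H * (X ^ 16)⁻¹) := by
    have e1 : Nd * d ≤ (X ^ 16)⁻¹ * H := mul_le_mul hNd hd hd0 hXi0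
    have e2 : T * (Nd * d) ≤ T * ((X ^ 16)⁻¹ * H) := mul_le_mul_of_nonneg_left e1 hT.le
    have e3 : T * (X ^ 16)⁻¹ ≤ T * ((X ^ 16)⁻¹ * H) := by
      refine mul_le_mul_of_nonneg_left ?_ hT.le
      exact le_mul_of_one_le_right hXi0 hH1
    calc _ ≤ T * ((X ^ 16)⁻¹ * H) + T * ((X ^ 16)⁻¹ * H) := add_le_add e2 (hNq.trans e3)
      _ = _ := by ring
  have a2 : T * d + Nq ≤ T * (2 * H) := by
    have e2 : T * d ≤ T * H := mul_le_mul_of_nonneg_left hd hT.le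
    have e3 : T * (X ^ 16)⁻¹ ≤ T * H := mul_le_mul_of_nonneg_left (hX16.trans hH1) hT.le
    calc _ ≤ T * H + T * H := add_le_add e2 (hNq.trans e3)
      _ = _ := by ring
  have b1 : NE * (NE * ((T * (Nd * d) + Nq) / ((X ^ 3)⁻¹) ^ 2)) ≤ T * (162 * (H * L ^ 2) * (X ^ 2)⁻¹) := by
    calc NE * (NE * ((T * (Nd * d) + Nq) / ((X ^ 3)⁻¹) ^ 2)) ≤
        9 * L * (9 * L * ((T * (2 * H * (X ^ 16)⁻¹)) / ((X ^ 3)⁻¹) ^ 2)) := by gcongr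
      _ = T * (162 * (H * L ^ 2) * (X ^ 10)⁻¹) := by field_simp; ring
      _ ≤ _ := by gcongr
  have b2 : NE * ((T * d + Nq) / X ^ 2) ≤ T * (18 * (H * L ^ 2) * (X ^ 2)⁻¹) := by
    calc NE * ((T * d + Nq) / X ^ 2) ≤ 9 * L * ((T * (2 * H)) / X ^ 2) := by gcongr
      _ = T * (18 * (H * L ^ 1) * (X ^ 2)⁻¹) := by field_simp; ring
      _ ≤ T * (18 * (H * L ^ 2) * (X ^ 2)⁻¹) := by
          gcongr
          norm_num
  have b3 : Z / ((X ^ 3)⁻¹) ^ 2 ≤ T * (C1 * (H * L ^ 2) * (X ^ 2)⁻¹) := by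
    calc Z / ((X ^ 3)⁻¹) ^ 2 ≤ (C1 * (X ^ 16)⁻¹ * (T * L)) / ((X ^ 3)⁻¹) ^ 2 := by gcongr
      _ = T * (C1 * (1 * L ^ 1) * (X ^ 10)⁻¹) := by field_simp
      _ ≤ T * (C1 * (H * L ^ 2) * (X ^ 2)⁻¹) := by
          gcongr
          norm_num
  have e : T * ((180 + C1) * L ^ (D + 2) * (X ^ 2)⁻¹) = T * (162 * (H * L ^ 2) * (X ^ 2)⁻¹) +
      T * (18 * (H * L ^ 2) * (X ^ 2)⁻¹) + T * (C1 * (H * L ^ 2) * (X ^ 2)⁻¹) := by
    rw [hH, pow_add]; ring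
  rw [e]
  exact add_le_add (add_le_add b1 b2) b3

lemma prodR_bd {ι : Type*} [Fintype ι] [DecidableEq ι] {N : ℕ} (hN : 1 ≤ N) {y a : ι → ℝ} {K Q : ℕ} (hy : ∀ i, |y i| ≤ K)
    {δ T H : ℝ} (hδ : 0 < δ) (hδ1 : δ ≤ 1) (hT : 0 ≤ T) (hH : (2 / δ) ^ ((Fintype.card ι * K) ^ 2) ≤ H)
    (hQ : Fintype.card ι * (2 * (Fintype.card ι * K) + 3) ≤ Q) :
    ∫ t in (0:ℝ)..T, ∏ i, ‖Dy N (y i) (sp δ (t + a i))‖ ^ 2 ≤ T * H + 4 * (N:ℝ) ^ Q := by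
  have hN1 : (1:ℝ) ≤ N := by exact_mod_cast hN
  refine (ms_prodR N hy a hδ hδ1 hT).trans ?_
  have h1 : (N:ℝ) ^ (Fintype.card ι * (2 * (Fintype.card ι * K) + 3)) ≤ (N:ℝ) ^ Q := pow_le_pow_right₀ hN1 hQ
  have h2 := mul_le_mul_of_nonneg_left hH hT
  linarith

lemma prodR2_bd {ι : Type*} [Fintype ι] [DecidableEq ι] {N : ℕ} (hN : 1 ≤ N) {y a : ι → ℝ} {K Q : ℕ} (hy : ∀ i, |y i| ≤ K)
    {δ T H : ℝ} (hδ : 0 < δ) (hδ1 : δ ≤ 1) (hT : 0 ≤ T)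
    (hH : (2 / δ) ^ (((Fintype.card ι + Fintype.card ι) * K) ^ 2) ≤ H)
    (hQ : (Fintype.card ι + Fintype.card ι) * (2 * ((Fintype.card ι + Fintype.card ι) * K) + 3) ≤ Q) :
    ∫ t in (0:ℝ)..T, (∏ i, ‖Dy N (y i) (sp δ (t + a i))‖ ^ 2) ^ 2 ≤ T * H + 4 * (N:ℝ) ^ Q := by
  have h2 : ∀ i : ι ⊕ ι, |Sum.elim y y i| ≤ (K : ℝ) := by
    rintro (i | i)
    · exact hy i
    · exact hy i
  have h3 := prodR_bd hN (a := Sum.elim a a) h2 hδ hδ1 hT (H := H) (Q := Q) (by rwa [Fintype.card_sum]) (by rwa [Fintype.card_sum])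
  have h4 : ∀ t : ℝ, ∏ i : ι ⊕ ι, ‖Dy N (Sum.elim y y i) (sp δ (t + Sum.elim a a i))‖ ^ 2 =
      (∏ i, ‖Dy N (y i) (sp δ (t + a i))‖ ^ 2) ^ 2 := by
    intro t
    rw [Fintype.prod_sum_type, sq]
    rfl
  simp_rw [h4] at h3
  exact h3

/-- the sum of the costs -/
lemma cost_bd {r m' D Q : ℕ} {C1 T δ L X b : ℝ} {N : ℕ} (hN : 1 ≤ N) {α a : Fin r → ℝ} (hT : 0 < T) (hC1 : 0 ≤ C1)
    (hb : b = (m' : ℝ)) (hb1 : 1 ≤ b) (hαb : ∀ i, |α i| + 1 ≤ b) (hL : 24 ≤ L) (hX1 : 1 ≤ X) (hδ : 0 < δ) (hδ1 : δ ≤ 1 / 16)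
    (hd : (2 / δ) ^ ((2 * (2 * m')) ^ 2) ≤ L ^ D) (hQ : 2 * (4 * (2 * m') + 3) ≤ Q)
    (hNQ : 4 * (N:ℝ) ^ Q ≤ T * (X ^ 16)⁻¹) (hNδ : (N:ℝ) ^ (-δ) ≤ (X ^ 16)⁻¹)
    (hz : ∀ i, ∫ t in (0:ℝ)..T, ‖riemannZeta (sp δ (t + a i)) - Dy N 1 (sp δ (t + a i))‖ ^ 2 ≤ C1 * (X ^ 16)⁻¹ * (T * L)) :
    ∑ i, ∫ t in (0:ℝ)..T, Rt N (Ex b (α i) ⌈L⌉₊) X ((X ^ 3)⁻¹) δ (t + a i) ≤
      r * (T * ((180 + C1) * L ^ (D + 2) * (X ^ 2)⁻¹)) := by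
  have hN1 : (1:ℝ) ≤ N := by exact_mod_cast hN
  have hX0 : 0 < X := by linarith
  have hkb : ((2 * m' : ℕ) : ℝ) = 2 * b := by rw [hb]; push_cast; ring
  have h1 : ∀ i, ∫ t in (0:ℝ)..T, Rt N (Ex b (α i) ⌈L⌉₊) X ((X ^ 3)⁻¹) δ (t + a i) ≤
      T * ((180 + C1) * L ^ (D + 2) * (X ^ 2)⁻¹) := by
    intro i
    have hEbd : ∀ x ∈ Ex b (α i) ⌈L⌉₊, |x| ≤ ((2 * m' : ℕ) : ℝ) := fun x hx => by
      rw [hkb]; exact Ex_bd hb1 (by have := hαb i; linarith) hx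
    have hcard : (#(Ex b (α i) ⌈L⌉₊) : ℝ) ≤ 9 * L := by
      have h1 := Ex_card b (α i) ⌈L⌉₊
      have h2 : (#(Ex b (α i) ⌈L⌉₊) : ℝ) ≤ 8 * (⌈L⌉₊ : ℝ) + 16 := by exact_mod_cast h1
      have h3 := Nat.ceil_lt_add_one (by linarith : 0 ≤ L)
      linarith
    refine (Rt_int hN hEbd hX0 (by positivity : (0:ℝ) < (X ^ 3)⁻¹) hδ hδ1 hT.le (a i)).trans ?_
    have h6 : (N:ℝ) ^ (2 * (4 * (2 * m') + 3)) ≤ (N:ℝ) ^ Q := pow_le_pow_right₀ hN1 hQ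
    exact Rt_num hT hC1 hL hX1 (Nat.cast_nonneg _) hcard (by positivity) hd (by positivity)
      (le_trans (by gcongr) hNQ) (by positivity) hNδ (hz i)
  refine (sum_le_sum fun i _ => h1 i).trans (le_of_eq ?_)
  rw [sum_const, card_univ, Fintype.card_fin, nsmul_eq_mul]

lemma exps (r m' : ℕ) (hm : 1 ≤ m') : r * m' ≤ (2 * r + 4) * m' ∧ (r + r) * m' ≤ (2 * r + 4) * m' ∧
    2 * (2 * m') ≤ (2 * r + 4) * m' ∧
    r * (2 * (r * m') + 3) ≤ 2 * r * (2 * (2 * r * m') + 3) + (r + 1) * (2 * (r * m') + 3) + 2 * (4 * (2 * m') + 3) + 6 ∧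
    (r + r) * (2 * ((r + r) * m') + 3) ≤
      2 * r * (2 * (2 * r * m') + 3) + (r + 1) * (2 * (r * m') + 3) + 2 * (4 * (2 * m') + 3) + 6 := by
  refine ⟨Nat.mul_le_mul_right _ (by omega), Nat.mul_le_mul_right _ (by omega), ?_, ?_, ?_⟩
  · calc 2 * (2 * m') = 4 * m' := by ring
      _ ≤ _ := Nat.mul_le_mul_right _ (by omega)
  · have h := Nat.mul_le_mul_right (2 * (r * m') + 3) (Nat.le_succ r)
    rw [Nat.succ_eq_add_one] at h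
    exact h.trans (by omega)
  · have e : (r + r) * (2 * ((r + r) * m') + 3) = 2 * r * (2 * (2 * r * m') + 3) := by ring
    rw [e]; omega

/-- truncated shifted moments with real exponents -/
theorem rx (m r : ℕ) : ∃ c : ℝ, 0 < c ∧ ∀ B : ℕ, ∃ (A : ℕ) (C T0 : ℝ), 0 < C ∧ ∀ T : ℝ, T0 ≤ T → ∀ δ : ℝ,
    C * Real.log (Real.log T) / Real.log T ≤ δ → δ ≤ 1 / 16 → ∀ V : ℝ, Real.log T ^ A ≤ V → V ≤ T ^ (c * δ) →
    ∀ (α a : Fin r → ℝ), (∀ j, |α j| ≤ m) → (∀ j, |a j| ≤ T) →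
    |(∫ t in (0:ℝ)..T, ∏ j, clip V ‖riemannZeta (sp δ (t + a j))‖ ^ (2 * α j)) -
      T * ∑' n : ℕ, ‖Ty α a n‖ ^ 2 * (n:ℝ) ^ (-(2 * (1 / 2 + δ)))| ≤ T / Real.log T ^ B := by
  set m' : ℕ := m + 1 with hm'
  set b : ℝ := (m' : ℝ) with hb
  set k : ℕ := 2 * m' with hk
  set D : ℕ := ((2 * r + 4) * m') ^ 2 with hD
  set Q : ℕ := 2 * r * (2 * (2 * r * m') + 3) + (r + 1) * (2 * (r * m') + 3) + 2 * (4 * k + 3) + 6 with hQ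
  have hb1 : 1 ≤ b := by rw [hb, hm']; push_cast; linarith [(Nat.cast_nonneg m : (0:ℝ) ≤ m)]
  set G : ℝ := 112 * (b + 1) + 8 with hG
  have hG0 : 0 ≤ G := by rw [hG]; linarith
  obtain ⟨C1, T1, hC1, hT1, hz⟩ := zeta_ms_shift
  refine ⟨1 / (64 * Q * (2 * m' * r + 1 : ℕ)), by positivity, fun B => ?_⟩
  obtain ⟨L1, hL1e⟩ := ev_exp (D + B + 3)
  obtain ⟨C, T0, hC, hpar⟩ := par Q (D + B + 6) (2 * m' * r + 1) (by omega) (by omega)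
    (max T1 (max L1 (max (2 * 6 ^ r * G + 2 * r * (180 + C1) + 5) G)))
  refine ⟨D + B + 2, C, T0, hC, fun T hT δ hδ hδ1 V hV1 hV2 α a hα ha => ?_⟩
  obtain ⟨hT4, hL24, hLL0, hTT0, hδ0, h2δ, h1L, N, X, hN1, hN3, hX1, hNQ, hNδ, hN2δ, hXP, hVX⟩ := hpar T hT δ hδ hδ1
  have hTp : 0 < T := by linarith
  set L := Real.log T with hL
  have hL1 : 1 ≤ L := by linarith
  have hL0 : 0 < L := by linarith
  have hLb := (le_max_right _ _).trans hLL0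
  have hLe : L1 ≤ L := (le_max_left _ _).trans hLb
  have hLc := (le_max_left _ _).trans ((le_max_right _ _).trans hLb)
  have hLG : G ≤ L := (le_max_right _ _).trans ((le_max_right _ _).trans hLb)
  have hV0 : 1 ≤ V := (one_le_pow₀ hL1).trans hV1
  have hN1r : (1:ℝ) ≤ N := by exact_mod_cast hN1
  have hX0 : 0 < X := by linarith
  have hLX : ∀ n : ℕ, n ≤ D + B + 6 → L ^ n ≤ X := fun n hn => (pow_le_pow_right₀ hL1 hn).trans hXP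
  have hX8 : 8 ≤ X := by
    have := hLX 1 (by omega)
    rw [pow_one] at this
    linarith
  have hXT : X ≤ T := by
    have h1 : (1:ℝ) ≤ (N:ℝ) ^ Q := one_le_pow₀ hN1r
    have h2 : 4 ≤ T * (X ^ 16)⁻¹ := by linarith
    rw [le_mul_inv_iff₀ (by positivity)] at h2
    have h3 : X ≤ X ^ 16 := le_self_pow₀ hX1 (by norm_num)
    linarith
  have hlogX : Real.log (2 * X) ≤ 2 * L := by
    rw [Real.log_mul (by norm_num) hX0.ne']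
    have h1 := Real.log_le_log hX0 hXT
    have h2 := Real.log_two_lt_d9
    linarith
  have hρ := rho_bd (n := D + B + 2) hb1 hL1 hX1 hlogX (hLX _ (by omega)) (hL1e L hLe)
  set κ : ℝ := G / L ^ (D + B + 2) with hκ
  have hq0 : 0 < L ^ (D + B + 2) := by positivity
  have hκρ : 4 * rho b X ((X ^ 3)⁻¹) ⌈L⌉₊ ≤ κ := by
    calc 4 * rho b X ((X ^ 3)⁻¹) ⌈L⌉₊ ≤ 4 * (28 * (b + 1) / L ^ (D + B + 2)) := by linarith
      _ = 112 * (b + 1) / L ^ (D + B + 2) := by ring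
      _ ≤ κ := by
        rw [hκ]
        refine div_le_div_of_nonneg_right ?_ hq0.le
        rw [hG]; linarith
  have hκV : 8 * (V ^ 2)⁻¹ ≤ κ := by
    rw [hκ, ← div_eq_mul_inv]
    refine div_le_div₀ hG0 (by rw [hG]; linarith) hq0 ?_
    exact hV1.trans (le_self_pow₀ hV0 (by norm_num))
  have hLq : L ≤ L ^ (D + B + 2) := le_self_pow₀ hL1 (by omega)
  have hκ1 : κ ≤ 1 := by
    rw [hκ, div_le_one hq0]
    linarith
  have hρ4 : rho b X ((X ^ 3)⁻¹) ⌈L⌉₊ ≤ 1 / 4 := by linarith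
  have hWe : 8 * X ^ 2 * (X ^ 3)⁻¹ ≤ 1 := by
    have : 8 * X ^ 2 * (X ^ 3)⁻¹ = 8 / X := by field_simp
    rw [this, div_le_one hX0]; exact hX8
  have hαb : ∀ i, |α i| + 1 ≤ b := by
    intro i
    rw [hb, hm']
    push_cast
    have := hα i
    linarith
  have hVb : ∀ i, V ^ |2 * α i| ≤ V ^ (2 * m') := by
    intro i
    rw [← Real.rpow_natCast]
    refine Real.rpow_le_rpow_of_exponent_le hV0 ?_
    rw [abs_mul, abs_two]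
    push_cast
    have := hαb i
    rw [hb] at this
    linarith
  have hVB : (V ^ (2 * m')) ^ r ≤ X := by
    have h1 := hVX V hV0 (hV2.trans (le_of_eq (by congr 1; ring)))
    rw [← pow_mul]
    exact (pow_le_pow_right₀ hV0 (by omega)).trans h1
  have hi := intR hN1 hαb (a := a) (J := ⌈L⌉₊) (V := V) (W := X) (e := (X ^ 3)⁻¹) (κ := κ) (η := (L ^ (D + B + 2))⁻¹)
    (Vb := V ^ (2 * m')) (δ := δ) (T := T) hTp.le hδ1 hV0 hX1 (by positivity) hWe hρ4 hκ1 hκρ hκV (by positivity) hVb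
  rw [Fintype.card_fin] at hi
  -- the mean squares
  obtain ⟨x1, x2, x3, x4, x5⟩ := exps r m' (by omega)
  have hδL : ∀ n : ℕ, n ≤ (2 * r + 4) * m' → (2 / δ) ^ (n ^ 2) ≤ L ^ D := fun n hn =>
    (pow_le_pow_left₀ (by positivity) h2δ _).trans (pow_le_pow_right₀ hL1 (Nat.pow_le_pow_left hn 2))
  have hαm : ∀ i, |α i| ≤ (m' : ℝ) := fun i => by
    have := hαb i
    rw [← hb]; linarith
  have hδ1' : δ ≤ 1 := by linarith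
  set s1 := ∑ φ : Fin r → Fin 3, ∫ t in (0:ℝ)..T, ∏ i, ‖Dy N (![α i, b, -b] (φ i)) (sp δ (t + a i))‖ ^ 2 with hs1
  have hs1b : s1 ≤ 3 ^ r * (T * L ^ D + 4 * (N:ℝ) ^ Q) := by
    have h1 : ∀ φ : Fin r → Fin 3, ∫ t in (0:ℝ)..T, ∏ i, ‖Dy N (![α i, b, -b] (φ i)) (sp δ (t + a i))‖ ^ 2 ≤
        T * L ^ D + 4 * (N:ℝ) ^ Q := by
      intro φ
      have h2 : ∀ i, |![α i, b, -b] (φ i)| ≤ (m' : ℝ) := by
        intro i
        generalize φ i = c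
        have hbp : |b| = b := abs_of_pos (by linarith)
        fin_cases c
        · exact hαm i
        · show |b| ≤ _
          rw [hbp]
        · show |-b| ≤ _
          rw [abs_neg, hbp]
      exact prodR_bd hN1 h2 hδ0 hδ1' hTp.le (by rw [Fintype.card_fin]; exact hδL _ x1) (by rw [Fintype.card_fin]; exact x4)
    refine (sum_le_sum fun i _ => h1 i).trans (le_of_eq ?_)
    rw [sum_const, card_univ, nsmul_eq_mul, Fintype.card_fun, Fintype.card_fin, Fintype.card_fin]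
    push_cast; ring
  have hs3b := prodR2_bd hN1 (y := α) (a := a) (K := m') (Q := Q) (H := L ^ D) hαm hδ0 hδ1' hTp.le
    (by rw [Fintype.card_fin]; exact hδL _ x2) (by rw [Fintype.card_fin]; exact x5)
  have hs2b := cost_bd (D := D) (Q := Q) hN1 (α := α) (a := a) hTp hC1.le hb hb1 hαb hL24 hX1 hδ0 hδ1 (hδL _ x3)
    (by rw [hQ]; omega) hNQ hNδ (fun i => (hz T ((le_max_left _ _).trans hTT0) N hN1 hN3 δ h1L hδ1 (a i) (ha i)).trans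
      (by gcongr))
  have hs20 : 0 ≤ ∑ i, ∫ t in (0:ℝ)..T, Rt N (Ex b (α i) ⌈L⌉₊) X ((X ^ 3)⁻¹) δ (t + a i) :=
    sum_nonneg fun i _ => intervalIntegral.integral_nonneg hTp.le fun t _ => Rt_nonneg _ _ _ _ _ _
  have hmv := mv_R N hN1 hαm a hδ0 hδ1' hTp.le
  rw [Fintype.card_fin] at hmv
  have hs4b := hmv.trans (show _ ≤ 4 * (N:ℝ) ^ Q + T * (2 * ((N:ℝ) ^ (-δ) * L ^ D)) from by
    have h1 : (N:ℝ) ^ ((r + 1) * (2 * (r * m') + 3)) ≤ (N:ℝ) ^ Q := pow_le_pow_right₀ hN1r (by rw [hQ]; omega)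
    have h2 := hδL (r * m') x1
    gcongr)
  have hfin := num2 (r := r) (D := D) (B := B) (VB := (V ^ (2 * m')) ^ r) hTp hC1.le hG0 hL24 hLc hX1 hκ hXP hVB hNQ hNδ
    hs1b hs2b hs3b hs4b hs20
  refine (abs_sub_le _ (∫ t in (0:ℝ)..T, ∏ i, ‖Dy N (α i) (sp δ (t + a i))‖ ^ 2) _).trans (le_trans ?_ hfin)
  exact add_le_add hi le_rfl

end

end Pool.Agent.Y746.CS
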