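import Pool.Agent.Y746.OA.SSum

set_option autoImplicit false

/-! Complex coefficients. -/

namespace Pool.Agent.Y746.OA

open MeasureTheory Finset Complex
open Pool.Agent.H306R2

noncomputable section

/-- the bilinear mean value theorem, complex coefficients -/
theorem mvbC (a b : ℕ → ℂ) (M N : ℕ) (A B : ℝ) :
    ‖(∫ t in A..B, (∑ m ∈ Icc 1 M, a m * (m : ℂ) ^ (-((t : ℂ) * Complex.I))) *
        (starRingEnd ℂ) (∑ n ∈ Icc 1 N, b n * (n : ℂ) ^ (-((t : ℂ) * Complex.I)))) -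
      ((B - A : ℝ) : ℂ) * ∑ n ∈ Icc 1 N, (if n ≤ M then a n * (starRingEnd ℂ) (b n) else 0)‖ ≤
    4 * N * ((∑ m ∈ Icc 1 M, ‖a m‖) * ∑ n ∈ Icc 1 N, ‖b n‖) := by
  have hcont : ∀ m : ℕ, 1 ≤ m → Continuous fun t : ℝ => (m : ℂ) ^ (-((t : ℂ) * Complex.I)) := by
    intro m hm
    have : (fun t : ℝ => (m : ℂ) ^ (-((t : ℂ) * Complex.I))) =
        fun t : ℝ => Complex.exp (((-(Real.log m) : ℝ) : ℂ) * Complex.I * t) := by
      funext t; exact cpow_it hm t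
    rw [this]
    fun_prop
  have e1 : ∀ t : ℝ, (∑ m ∈ Icc 1 M, a m * (m : ℂ) ^ (-((t : ℂ) * Complex.I))) *
        (starRingEnd ℂ) (∑ n ∈ Icc 1 N, b n * (n : ℂ) ^ (-((t : ℂ) * Complex.I))) =
      ∑ n ∈ Icc 1 N, ∑ m ∈ Icc 1 M, (a m * (starRingEnd ℂ) (b n)) *
        ((m : ℂ) ^ (-((t : ℂ) * Complex.I)) * (starRingEnd ℂ) ((n : ℂ) ^ (-((t : ℂ) * Complex.I)))) := by
    intro t
    rw [map_sum, sum_mul_sum, sum_comm]
    refine sum_congr rfl fun n _ => sum_congr rfl fun m _ => ?_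
    rw [map_mul]
    ring
  simp_rw [e1]
  have hc2 : ∀ n ∈ Icc 1 N, ∀ m ∈ Icc 1 M, Continuous (fun t : ℝ => (a m * (starRingEnd ℂ) (b n)) *
        ((m : ℂ) ^ (-((t : ℂ) * Complex.I)) * (starRingEnd ℂ) ((n : ℂ) ^ (-((t : ℂ) * Complex.I))))) := by
    intro n hn m hm
    rw [mem_Icc] at hn hm
    exact continuous_const.mul ((hcont m hm.1).mul (Complex.continuous_conj.comp (hcont n hn.1)))
  have hint : ∀ n ∈ Icc 1 N, ∀ m ∈ Icc 1 M, IntervalIntegrable (fun t : ℝ => (a m * (starRingEnd ℂ) (b n)) *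
        ((m : ℂ) ^ (-((t : ℂ) * Complex.I)) * (starRingEnd ℂ) ((n : ℂ) ^ (-((t : ℂ) * Complex.I))))) volume A B :=
    fun n hn m hm => (hc2 n hn m hm).intervalIntegrable _ _
  rw [intervalIntegral.integral_finsetSum (fun n hn => Continuous.intervalIntegrable
    (continuous_finsetSum _ fun m hm => hc2 n hn m hm) _ _)]
  have e2 : ∀ n ∈ Icc 1 N, ∫ t in A..B, ∑ m ∈ Icc 1 M, (a m * (starRingEnd ℂ) (b n)) *
        ((m : ℂ) ^ (-((t : ℂ) * Complex.I)) * (starRingEnd ℂ) ((n : ℂ) ^ (-((t : ℂ) * Complex.I)))) =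
      ∑ m ∈ Icc 1 M, (a m * (starRingEnd ℂ) (b n)) * ∫ t in A..B,
        ((m : ℂ) ^ (-((t : ℂ) * Complex.I)) * (starRingEnd ℂ) ((n : ℂ) ^ (-((t : ℂ) * Complex.I)))) := by
    intro n hn
    rw [intervalIntegral.integral_finsetSum (fun m hm => hint n hn m hm)]
    exact sum_congr rfl fun m _ => intervalIntegral.integral_const_mul _ _
  rw [sum_congr rfl e2]
  have e3 : ((B - A : ℝ) : ℂ) * ∑ n ∈ Icc 1 N, (if n ≤ M then a n * (starRingEnd ℂ) (b n) else 0) =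
      ∑ n ∈ Icc 1 N, ∑ m ∈ Icc 1 M, (a m * (starRingEnd ℂ) (b n)) * (if m = n then ((B - A : ℝ) : ℂ) else 0) := by
    rw [mul_sum]
    refine sum_congr rfl fun n hn => ?_
    rw [mem_Icc] at hn
    simp_rw [mul_ite, mul_zero]
    rw [sum_ite_eq' (Icc 1 M) n]
    by_cases h : n ≤ M
    · rw [if_pos h, if_pos (mem_Icc.mpr ⟨hn.1, h⟩)]
      ring
    · rw [if_neg h, if_neg (by rw [mem_Icc]; omega)]
  rw [e3, ← sum_sub_distrib]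
  simp_rw [← sum_sub_distrib, ← mul_sub]
  have e4 : 4 * (N:ℝ) * ((∑ m ∈ Icc 1 M, ‖a m‖) * ∑ n ∈ Icc 1 N, ‖b n‖) =
      ∑ n ∈ Icc 1 N, ∑ m ∈ Icc 1 M, ‖a m * (starRingEnd ℂ) (b n)‖ * (4 * N) := by
    rw [sum_mul_sum, sum_comm, mul_sum]
    refine sum_congr rfl fun n _ => ?_
    rw [mul_sum]
    refine sum_congr rfl fun m _ => ?_
    rw [norm_mul, RCLike.norm_conj]; ring
  rw [e4]
  refine (norm_sum_le _ _).trans (sum_le_sum fun n hn => ?_)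
  refine (norm_sum_le _ _).trans (sum_le_sum fun m hm => ?_)
  rw [norm_mul]
  rw [mem_Icc] at hn hm
  exact mul_le_mul_of_nonneg_left (term_int hm.1 hn.1 hn.2 A B) (norm_nonneg _)

/-- Dirichlet polynomials with complex coefficients -/
def Dc (F : ℕ → ℂ) (M : ℕ) (s : ℂ) : ℂ := ∑ n ∈ Icc 1 M, F n * (n:ℂ) ^ (-s)

lemma Dc_line (F : ℕ → ℂ) (M : ℕ) (σ t : ℝ) : Dc F M ((σ : ℂ) + (t : ℂ) * Complex.I) =
    ∑ m ∈ Icc 1 M, (F m * (((m:ℝ) ^ (-σ) : ℝ) : ℂ)) * (m : ℂ) ^ (-((t : ℂ) * Complex.I)) := by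
  unfold Dc
  refine sum_congr rfl fun m hm => ?_
  rw [mem_Icc] at hm
  rw [cpow_split hm.1]
  ring

lemma Dc_diff (F : ℕ → ℂ) (M : ℕ) : Differentiable ℂ (Dc F M) := by
  unfold Dc
  refine Differentiable.fun_sum fun n hn => ?_
  rw [mem_Icc] at hn
  refine Differentiable.const_mul ?_ _
  intro s
  refine DifferentiableAt.const_cpow (by fun_prop) (Or.inl ?_)
  exact_mod_cast (by omega : n ≠ 0)

/-- mean value of a product on a vertical line -/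
theorem mvDC (F G : ℕ → ℂ) (M : ℕ) {σ : ℝ} (hσ : 0 ≤ σ) (A B : ℝ) :
    ‖(∫ t in A..B, Dc F M ((σ : ℂ) + (t : ℂ) * Complex.I) * (starRingEnd ℂ) (Dc G M ((σ : ℂ) + (t : ℂ) * Complex.I))) -
      ((B - A : ℝ) : ℂ) * ∑ n ∈ Icc 1 M, F n * (starRingEnd ℂ) (G n) * (((n:ℝ) ^ (-(2 * σ)) : ℝ) : ℂ)‖ ≤
      4 * M * ((∑ n ∈ Icc 1 M, ‖F n‖) * ∑ n ∈ Icc 1 M, ‖G n‖) := by
  simp_rw [Dc_line]
  have h := mvbC (fun n => F n * (((n:ℝ) ^ (-σ) : ℝ) : ℂ)) (fun n => G n * (((n:ℝ) ^ (-σ) : ℝ) : ℂ)) M M A B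
  have e1 : ∑ n ∈ Icc 1 M, (if n ≤ M then (F n * (((n:ℝ) ^ (-σ) : ℝ) : ℂ)) * (starRingEnd ℂ) (G n * (((n:ℝ) ^ (-σ) : ℝ) : ℂ)) else 0) =
      ∑ n ∈ Icc 1 M, F n * (starRingEnd ℂ) (G n) * (((n:ℝ) ^ (-(2 * σ)) : ℝ) : ℂ) := by
    refine sum_congr rfl fun n hn => ?_
    rw [mem_Icc] at hn
    have hn0 : (0:ℝ) < n := by exact_mod_cast hn.1
    rw [if_pos hn.2, map_mul, Complex.conj_ofReal]
    have : (n:ℝ) ^ (-(2 * σ)) = (n:ℝ) ^ (-σ) * (n:ℝ) ^ (-σ) := by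
      rw [← Real.rpow_add hn0]; congr 1; ring
    rw [this]
    push_cast
    ring
  rw [e1] at h
  refine h.trans ?_
  have hle : ∀ H : ℕ → ℂ, ∑ n ∈ Icc 1 M, ‖H n * (((n:ℝ) ^ (-σ) : ℝ) : ℂ)‖ ≤ ∑ n ∈ Icc 1 M, ‖H n‖ := by
    intro H
    refine sum_le_sum fun n hn => ?_
    rw [mem_Icc] at hn
    rw [norm_mul, Complex.norm_real, Real.norm_of_nonneg (by positivity)]
    exact mul_le_of_le_one_right (norm_nonneg _) (rpow_neg_le1 hn.1 hσ)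
  refine mul_le_mul_of_nonneg_left ?_ (by positivity)
  exact mul_le_mul (hle F) (hle G) (sum_nonneg fun _ _ => norm_nonneg _) (sum_nonneg fun _ _ => norm_nonneg _)

lemma l1_polyC {g : ℕ → ℂ} {K : ℕ} (hg : ∀ n, ‖g n‖ ≤ dv K n) (M : ℕ) :
    ∑ n ∈ Icc 1 M, ‖g n‖ ≤ (M:ℝ) ^ (K + 1) := by
  have := l1_poly (g := fun n => ‖g n‖) (fun n => by rw [abs_of_nonneg (norm_nonneg _)]; exact hg n) M
  simpa using this

/-- mean square, complex coefficients -/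
lemma msC {K : ℕ} {g : ℕ → ℂ} (hg : ∀ n, ‖g n‖ ≤ dv K n) {M : ℕ} {δ : ℝ} (hδ : 0 < δ) (hδ1 : δ ≤ 1) (A B : ℝ)
    (hAB : A ≤ B) :
    ∫ t in A..B, ‖Dc g M (((1 / 2 + δ : ℝ) : ℂ) + (t : ℂ) * Complex.I)‖ ^ 2 ≤
      (B - A) * (2 / δ) ^ (K ^ 2) + 4 * M ^ (2 * K + 3) := by
  have h := mvDC g g M (σ := 1 / 2 + δ) (by linarith) A B
  have e1 : ∀ t : ℝ, Dc g M (((1 / 2 + δ : ℝ) : ℂ) + (t : ℂ) * Complex.I) *
      (starRingEnd ℂ) (Dc g M (((1 / 2 + δ : ℝ) : ℂ) + (t : ℂ) * Complex.I)) =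
      ((‖Dc g M (((1 / 2 + δ : ℝ) : ℂ) + (t : ℂ) * Complex.I)‖ ^ 2 : ℝ) : ℂ) := by
    intro t
    rw [Complex.mul_conj, Complex.normSq_eq_norm_sq]
  simp_rw [e1] at h
  have e2 : ∑ n ∈ Icc 1 M, g n * (starRingEnd ℂ) (g n) * (((n:ℝ) ^ (-(2 * (1 / 2 + δ))) : ℝ) : ℂ) =
      ((∑ n ∈ Icc 1 M, ‖g n‖ ^ 2 * (n:ℝ) ^ (-(2 * (1 / 2 + δ))) : ℝ) : ℂ) := by
    rw [Complex.ofReal_sum]
    refine sum_congr rfl fun n _ => ?_
    rw [Complex.mul_conj, Complex.normSq_eq_norm_sq]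
    push_cast; ring
  rw [e2, intervalIntegral.integral_ofReal, ← Complex.ofReal_mul, ← Complex.ofReal_sub, Complex.norm_real,
    Real.norm_eq_abs] at h
  have h2 := (abs_le.mp h).2
  have h3 : ∑ n ∈ Icc 1 M, ‖g n‖ ^ 2 * (n:ℝ) ^ (-(2 * (1 / 2 + δ))) ≤ (2 / δ) ^ (K ^ 2) := by
    have := tail_sq (K := K) (g := fun n => ‖g n‖) (fun n => by rw [abs_of_nonneg (norm_nonneg _)]; exact hg n)
      (N := 1) le_rfl hδ hδ1 (F := Icc 1 M) fun n hn => (mem_Icc.mp hn).1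
    rwa [Nat.cast_one, Real.one_rpow, one_mul] at this
  have h4 := l1_polyC hg M
  have h5 : 4 * (M:ℝ) * ((∑ n ∈ Icc 1 M, ‖g n‖) * ∑ n ∈ Icc 1 M, ‖g n‖) ≤ 4 * M ^ (2 * K + 3) := by
    have h0 : 0 ≤ ∑ n ∈ Icc 1 M, ‖g n‖ := sum_nonneg fun _ _ => norm_nonneg _
    calc _ ≤ 4 * (M:ℝ) * ((M:ℝ) ^ (K + 1) * (M:ℝ) ^ (K + 1)) := by gcongr
      _ = _ := by ring
  have h6 := mul_le_mul_of_nonneg_left h3 (by linarith : 0 ≤ B - A)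
  linarith

end

end Pool.Agent.Y746.OA
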