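import Pool.Agent.Y746.CS.Cx

set_option autoImplicit false

/-! Real exponents: pointwise inequalities and mean squares. -/

namespace Pool.Agent.Y746.CS

open MeasureTheory Finset
open Pool.Agent.H306R2 Pool.Agent.Y746.OA

noncomputable section

/-- closeness at good points -/
lemma ptw_good {N : ℕ} (hN : 1 ≤ N) {α b : ℝ} (hαb : |α| + 1 ≤ b) {J : ℕ} {V W e δ t : ℝ} (hV : 1 ≤ V) (hW : 1 ≤ W)
    (he : 0 < e) (hWe : 8 * W ^ 2 * e ≤ 1) (hρ : rho b W e J ≤ 1 / 4) (hc : Rt N (Ex b α J) W e δ t < 1) :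
    |clip V ‖riemannZeta (sp δ t)‖ ^ (2 * α) - ‖Dy N α (sp δ t)‖ ^ 2| ≤
      4 * rho b W e J * ‖Dy N α (sp δ t)‖ ^ 2 +
      8 * (V ^ 2)⁻¹ * (‖Dy N b (sp δ t)‖ ^ 2 + ‖Dy N (-b) (sp δ t)‖ ^ 2) := by
  have hb1 : 1 ≤ b := by have := abs_nonneg α; linarith
  have hρ0 : 0 ≤ rho b W e J := by
    unfold rho
    have : 0 ≤ Real.log (2 * W) := Real.log_nonneg (by linarith)
    positivity
  obtain ⟨g1, g2, g3⟩ := Rt_lt (by linarith) he hc
  have hG : Good (fun y => Dy N y (sp δ t)) (Ex b α J) W e :=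
    { z0 := Dy_zero hN _, W1 := hW, e0 := he.le, small := hWe, zero := S1_sub (S1_zero b α J),
      neg := fun a ha => Ex_neg ha, mul := g1, bd := g2 }
  obtain ⟨m1, m2, m3, m4⟩ := hG.main hb1 (by linarith) (S1_sub (S1_b b α J)) J
    (fun j hj => ⟨S1_sub (S1_iter hj), S1_two (S1_iter hj)⟩)
    (fun j hj => ⟨S1_sub (S1_iter1 hj), S1_two (S1_iter1 hj)⟩) g3
  have hαE : α ∈ Ex b α J := S1_sub (S1_iter (j := 0) (by omega))
  have hbE : b ∈ Ex b α J := S1_sub (S1_b b α J)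
  have := good_ineq hV m1 (hG.pos hαE) (hG.pos hbE) (hG.pos (Ex_neg hbE)) hαb hρ0 hρ m2 m3 m4
  linarith

lemma prod_close {ι : Type*} [DecidableEq ι] (S : Finset ι) (x y z : ι → ℝ) {κ : ℝ} (hκ0 : 0 ≤ κ) (hκ1 : κ ≤ 1)
    (hx : ∀ i, 0 ≤ x i) (hy : ∀ i, 0 ≤ y i) (hz : ∀ i, 0 ≤ z i) (h : ∀ i ∈ S, |x i - y i| ≤ κ * z i) :
    |∏ i ∈ S, x i - ∏ i ∈ S, y i| ≤ κ * ∏ i ∈ S, (y i + z i) ∧ ∏ i ∈ S, x i ≤ ∏ i ∈ S, (y i + z i) := by
  induction S using Finset.induction_on with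
  | empty => simpa using hκ0
  | insert j S hj ih =>
    obtain ⟨g1, g2⟩ := ih fun i hi => h i (mem_insert_of_mem hi)
    rw [prod_insert hj, prod_insert hj, prod_insert hj]
    set A := ∏ i ∈ S, x i
    set B := ∏ i ∈ S, y i
    set M := ∏ i ∈ S, (y i + z i)
    have hA : 0 ≤ A := prod_nonneg fun i _ => hx i
    have hM : 0 ≤ M := prod_nonneg fun i _ => add_nonneg (hy i) (hz i)
    have hj1 := h j (mem_insert_self _ _)
    have hxj : x j ≤ y j + z j := by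
      have h1 := (abs_le.mp hj1).2
      have h2 : κ * z j ≤ z j := mul_le_of_le_one_left (hz j) hκ1
      linarith
    constructor
    · have e : x j * A - y j * B = (x j - y j) * A + y j * (A - B) := by ring
      rw [e]
      refine (abs_add_le _ _).trans ?_
      rw [abs_mul, abs_mul, abs_of_nonneg hA, abs_of_nonneg (hy j)]
      calc |x j - y j| * A + y j * |A - B| ≤ κ * z j * M + y j * (κ * M) := by
            refine add_le_add ?_ (mul_le_mul_of_nonneg_left g1 (hy j))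
            exact mul_le_mul hj1 g2 hA (mul_nonneg hκ0 (hz j))
        _ = _ := by ring
    · exact mul_le_mul hxj g2 hA (add_nonneg (hy j) (hz j))

/-- the pointwise inequality for products -/
lemma pt3 {ι : Type*} [Fintype ι] [DecidableEq ι] (x y U R : ι → ℝ) {κ η Vb : ℝ} (hκ0 : 0 ≤ κ) (hκ1 : κ ≤ 1) (hη : 0 < η)
    (hx : ∀ i, 0 ≤ x i) (hy : ∀ i, 0 ≤ y i) (hU : ∀ i, 0 ≤ U i) (hR : ∀ i, 0 ≤ R i) (hxV : ∀ i, x i ≤ Vb)
    (h : ∀ i, R i < 1 → |x i - y i| ≤ κ * (y i + U i)) :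
    |∏ i, x i - ∏ i, y i| ≤ κ * ∏ i, (2 * y i + U i) + (Vb ^ Fintype.card ι + 1 / η) * ∑ i, R i + η * (∏ i, y i) ^ 2 := by
  have hSR : 0 ≤ ∑ i, R i := sum_nonneg fun i _ => hR i
  have hP : 0 ≤ ∏ i, y i := prod_nonneg fun i _ => hy i
  have hM : 0 ≤ ∏ i, (2 * y i + U i) := prod_nonneg fun i _ => by have := hy i; have := hU i; positivity
  by_cases hg : ∀ i, R i < 1
  · have h1 := (prod_close univ x y (fun i => y i + U i) hκ0 hκ1 hx hy (fun i => add_nonneg (hy i) (hU i))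
      fun i _ => h i (hg i)).1
    have e : ∏ i, (y i + (y i + U i)) = ∏ i, (2 * y i + U i) := prod_congr rfl fun i _ => by ring
    rw [e] at h1
    have hVb : 0 ≤ Vb ^ Fintype.card ι := by
      rcases isEmpty_or_nonempty ι with hE | ⟨⟨i⟩⟩
      · rw [Fintype.card_eq_zero, pow_zero]; norm_num
      · have : 0 ≤ Vb := (hx i).trans (hxV i)
        positivity
    have h2 : 0 ≤ (Vb ^ Fintype.card ι + 1 / η) * ∑ i, R i := by positivity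
    have h3 : 0 ≤ η * (∏ i, y i) ^ 2 := by positivity
    linarith
  · push Not at hg
    obtain ⟨i, hi⟩ := hg
    have h1 : 1 ≤ ∑ i, R i := hi.trans (single_le_sum (f := R) (fun j _ => hR j) (mem_univ i))
    have hVb0 : 0 ≤ Vb := (hx i).trans (hxV i)
    have h2 : ∏ i, x i ≤ Vb ^ Fintype.card ι := by
      refine (prod_le_prod (fun j _ => hx j) fun j _ => hxV j).trans ?_
      rw [prod_const, card_univ]
    have h3 : 0 ≤ ∏ i, x i := prod_nonneg fun i _ => hx i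
    have h4 : ∏ i, y i ≤ η * (∏ i, y i) ^ 2 + 1 / η := by
      set P := ∏ i, y i
      have g1 : η * P ^ 2 + 1 / η - 2 * P = (η * P - 1) ^ 2 / η := by field_simp; ring
      have g2 : 0 ≤ (η * P - 1) ^ 2 / η := by positivity
      linarith
    have h5 : Vb ^ Fintype.card ι + 1 / η ≤ (Vb ^ Fintype.card ι + 1 / η) * ∑ i, R i :=
      le_mul_of_one_le_right (by positivity) h1
    have h6 : 0 ≤ κ * ∏ i, (2 * y i + U i) := mul_nonneg hκ0 hM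
    have h7 : |∏ i, x i - ∏ i, y i| ≤ ∏ i, x i + ∏ i, y i := by
      rw [abs_le]; constructor <;> linarith
    linarith

/-- expansion of the product -/
lemma expand {ι : Type*} [Fintype ι] [DecidableEq ι] (y u v : ι → ℝ) (hy : ∀ i, 0 ≤ y i) (hu : ∀ i, 0 ≤ u i)
    (hv : ∀ i, 0 ≤ v i) :
    ∏ i, (2 * y i + (u i + v i)) ≤ 2 ^ Fintype.card ι * ∑ φ : ι → Fin 3, ∏ i, (![y i, u i, v i] (φ i)) := by
  have h1 : ∏ i, (2 * y i + (u i + v i)) ≤ ∏ i, (2 * ∑ c : Fin 3, ![y i, u i, v i] c) := by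
    refine prod_le_prod (fun i _ => by have := hy i; have := hu i; have := hv i; positivity) fun i _ => ?_
    rw [Fin.sum_univ_three]
    show 2 * y i + (u i + v i) ≤ 2 * (y i + u i + v i)
    have := hu i; have := hv i; linarith
  refine h1.trans (le_of_eq ?_)
  rw [prod_mul_distrib, prod_const, card_univ, prod_univ_sum]
  congr 1

/-- product of several shifted polynomials -/
def Hy {ι : Type*} [Fintype ι] (N : ℕ) (y a : ι → ℝ) : ArithmeticFunction ℂ := ∏ i, trC N (tw1 (y i) (a i))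
/-- the full convolution -/
def Ty {ι : Type*} [Fintype ι] (y a : ι → ℝ) : ArithmeticFunction ℂ := ∏ i, tw1 (y i) (a i)

variable {ι : Type*} [Fintype ι] [DecidableEq ι]

lemma Hy_le (N : ℕ) {y : ι → ℝ} {K : ℕ} (hy : ∀ i, |y i| ≤ K) (a : ι → ℝ) (n : ℕ) :
    ‖Hy N y a n‖ ≤ dv ((Fintype.card ι * K : ℕ) : ℝ) n := by
  have h := norm_prod_le' univ (fun i => trC N (tw1 (y i) (a i))) K (fun i _ n => trC_le N (tw1_le (hy i) (a i)) n) n
  rwa [card_univ] at h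

lemma Ty_le {y : ι → ℝ} {K : ℕ} (hy : ∀ i, |y i| ≤ K) (a : ι → ℝ) (n : ℕ) :
    ‖Ty y a n‖ ≤ dv ((Fintype.card ι * K : ℕ) : ℝ) n := by
  have h := norm_prod_le' univ (fun i => tw1 (y i) (a i)) K (fun i _ n => tw1_le (hy i) (a i) n) n
  rwa [card_univ] at h

lemma Hy_low {N n : ℕ} (hn : n ≤ N) (y a : ι → ℝ) : Hy N y a n = Ty y a n :=
  prod_low univ (fun i => tw1 (y i) (a i)) hn

lemma Hy_eval (N : ℕ) (y a : ι → ℝ) (δ t : ℝ) : (∀ n : ℕ, N ^ Fintype.card ι < n → Hy N y a n = 0) ∧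
    Dc (Hy N y a) (N ^ Fintype.card ι) (sp δ t) = ∏ i, Dy N (y i) (sp δ (t + a i)) := by
  have h := Dc_prod univ (fun i => trC N (tw1 (y i) (a i))) N (fun i _ => trC_vanish N _) (sp δ t)
  rw [card_univ] at h
  refine ⟨h.1, ?_⟩
  have h2 := h.2
  simp_rw [Dc_shift] at h2
  exact h2

/-- mean squares of products -/
lemma ms_prodR (N : ℕ) {y : ι → ℝ} {K : ℕ} (hy : ∀ i, |y i| ≤ K) (a : ι → ℝ) {δ T : ℝ} (hδ : 0 < δ) (hδ1 : δ ≤ 1)
    (hT : 0 ≤ T) :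
    ∫ t in (0:ℝ)..T, ∏ i, ‖Dy N (y i) (sp δ (t + a i))‖ ^ 2 ≤
      T * (2 / δ) ^ ((Fintype.card ι * K) ^ 2) + 4 * (N:ℝ) ^ (Fintype.card ι * (2 * (Fintype.card ι * K) + 3)) := by
  have h := msC (K := Fintype.card ι * K) (g := fun n => Hy N y a n) (Hy_le N hy a) (M := N ^ Fintype.card ι) hδ hδ1 0 T hT
  have e : ∀ t : ℝ, ∏ i, ‖Dy N (y i) (sp δ (t + a i))‖ ^ 2 =
      ‖Dc (fun n => Hy N y a n) (N ^ Fintype.card ι) (((1 / 2 + δ : ℝ) : ℂ) + (t : ℂ) * Complex.I)‖ ^ 2 := by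
    intro t
    have h2 := (Hy_eval N y a δ t).2
    rw [prod_pow, ← norm_prod, ← h2]
    rfl
  simp_rw [e]
  refine h.trans (le_of_eq ?_)
  push_cast
  rw [sub_zero, ← pow_mul]

/-- the main term -/
lemma mv_R (N : ℕ) (hN : 1 ≤ N) {y : ι → ℝ} {K : ℕ} (hy : ∀ i, |y i| ≤ K) (a : ι → ℝ) {δ T : ℝ} (hδ : 0 < δ) (hδ1 : δ ≤ 1)
    (hT : 0 ≤ T) :
    |(∫ t in (0:ℝ)..T, ∏ i, ‖Dy N (y i) (sp δ (t + a i))‖ ^ 2) -
      T * ∑' n : ℕ, ‖Ty y a n‖ ^ 2 * (n:ℝ) ^ (-(2 * (1 / 2 + δ)))| ≤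
      4 * (N:ℝ) ^ ((Fintype.card ι + 1) * (2 * (Fintype.card ι * K) + 3)) +
        T * (2 * ((N:ℝ) ^ (-δ) * (2 / δ) ^ ((Fintype.card ι * K) ^ 2))) := by
  set r := Fintype.card ι with hr
  set K' := r * K with hK'
  set M : ℕ := N ^ (r + 1) with hM
  have hkM : N ^ r ≤ M := Nat.pow_le_pow_right hN (by omega)
  have hNM : N ≤ M := by
    calc N = N ^ 1 := (pow_one N).symm
      _ ≤ M := Nat.pow_le_pow_right hN (by omega)
  have h1 := mvDC (fun n => Hy N y a n) (fun n => Hy N y a n) M (σ := 1 / 2 + δ) (by linarith) 0 T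
  have h2 := diag_trunc (Hy_le N hy a) (Hy_le N hy a) (Ty_le hy a) (Ty_le hy a) hN hNM
    (fun n hn => Hy_low hn y a) (fun n hn => Hy_low hn y a) hδ hδ1
  rw [sub_zero] at h1
  rw [← hr, ← hK'] at h2
  have h3 : 4 * (M:ℝ) * ((∑ n ∈ Icc 1 M, ‖Hy N y a n‖) * ∑ n ∈ Icc 1 M, ‖Hy N y a n‖) ≤
      4 * (N:ℝ) ^ ((r + 1) * (2 * K' + 3)) := by
    have g1 := l1_polyC (Hy_le N hy a) M
    rw [← hr, ← hK'] at g1
    calc 4 * (M:ℝ) * ((∑ n ∈ Icc 1 M, ‖Hy N y a n‖) * ∑ n ∈ Icc 1 M, ‖Hy N y a n‖) ≤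
        4 * (M:ℝ) * ((M:ℝ) ^ (K' + 1) * (M:ℝ) ^ (K' + 1)) := by gcongr
      _ = 4 * (M:ℝ) ^ (2 * K' + 3) := by ring
      _ = _ := by rw [hM]; push_cast; rw [← pow_mul]
  have h4 := h1.trans h3
  have e1 : ∀ t : ℝ, Dc (fun n => Hy N y a n) M (((1 / 2 + δ : ℝ) : ℂ) + (t : ℂ) * Complex.I) *
        (starRingEnd ℂ) (Dc (fun n => Hy N y a n) M (((1 / 2 + δ : ℝ) : ℂ) + (t : ℂ) * Complex.I)) =
      ((∏ i, ‖Dy N (y i) (sp δ (t + a i))‖ ^ 2 : ℝ) : ℂ) := by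
    intro t
    obtain ⟨a1, a2⟩ := Hy_eval N y a δ t
    rw [prod_pow, ← norm_prod, ← a2, Complex.mul_conj, Complex.normSq_eq_norm_sq]
    have := Dc_ext (Hy N y a) hkM a1 (sp δ t)
    rw [← this]
    rfl
  simp_rw [e1] at h4
  rw [intervalIntegral.integral_ofReal] at h4
  have e2 : ∀ A : ArithmeticFunction ℂ, ∀ n : ℕ, A n * (starRingEnd ℂ) (A n) * wt δ n =
      ((‖A n‖ ^ 2 * (n:ℝ) ^ (-(2 * (1 / 2 + δ))) : ℝ) : ℂ) := by
    intro A n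
    unfold wt
    rw [Complex.mul_conj, Complex.normSq_eq_norm_sq]
    push_cast; rfl
  have e3 : ∑' n : ℕ, Ty y a n * (starRingEnd ℂ) (Ty y a n) * wt δ n =
      ((∑' n : ℕ, ‖Ty y a n‖ ^ 2 * (n:ℝ) ^ (-(2 * (1 / 2 + δ))) : ℝ) : ℂ) := by
    rw [Complex.ofReal_tsum]
    exact tsum_congr fun n => e2 _ n
  rw [e3] at h2
  set S1 := ∑ n ∈ Icc 1 M, Hy N y a n * (starRingEnd ℂ) (Hy N y a n) * wt δ n with hS1
  have e4 : ∑ n ∈ Icc 1 M, Hy N y a n * (starRingEnd ℂ) (Hy N y a n) * (((n:ℝ) ^ (-(2 * (1 / 2 + δ))) : ℝ) : ℂ) = S1 := rfl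
  rw [e4] at h4
  set S2 := ∑' n : ℕ, ‖Ty y a n‖ ^ 2 * (n:ℝ) ^ (-(2 * (1 / 2 + δ))) with hS2
  have h5 : ‖(T:ℂ) * S1 - (T:ℂ) * (S2:ℂ)‖ ≤ T * (2 * ((N:ℝ) ^ (-δ) * (2 / δ) ^ (K' ^ 2))) := by
    rw [← mul_sub, norm_mul, Complex.norm_real, Real.norm_of_nonneg hT]
    exact mul_le_mul_of_nonneg_left h2 hT
  have h6 := (norm_sub_le_norm_sub_add_norm_sub (((∫ t in (0:ℝ)..T, ∏ i, ‖Dy N (y i) (sp δ (t + a i))‖ ^ 2 : ℝ) : ℂ))
    ((T:ℂ) * S1) ((T:ℂ) * (S2:ℂ))).trans (add_le_add h4 h5)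
  rw [← Complex.ofReal_mul, ← Complex.ofReal_sub, Complex.norm_real, Real.norm_eq_abs] at h6
  exact h6

end

end Pool.Agent.Y746.CS
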