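import Pool.Agent.Y746.CS.Rx

set_option autoImplicit false

/-! Real exponents: the integrated inequality. -/

namespace Pool.Agent.Y746.CS

open MeasureTheory Finset
open Pool.Agent.H306R2 Pool.Agent.Y746.OA

noncomputable section

/-- mean square of a polynomial supported on `[N, M]`, shifted -/
lemma ms_tail_sh {K : ℕ} {g : ℕ → ℝ} (hg : ∀ n, |g n| ≤ dv K n) {N M : ℕ} (hN : 1 ≤ N)
    (h0 : ∀ n, n < N → g n = 0) {δ : ℝ} (hδ : 0 < δ) (hδ1 : δ ≤ 1) {T : ℝ} (hT : 0 ≤ T) (c : ℝ) :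
    ∫ t in (0:ℝ)..T, ‖Dp g M (sp δ (t + c))‖ ^ 2 ≤
      T * ((N:ℝ) ^ (-δ) * (2 / δ) ^ (K ^ 2)) + 4 * M ^ (2 * K + 3) := by
  have h00 : ∫ t in (0:ℝ)..T, ‖Dp g M (sp δ (t + c))‖ ^ 2 = ∫ t in (0 + c)..(T + c), ‖Dp g M (sp δ t)‖ ^ 2 :=
    intervalIntegral.integral_comp_add_right (f := fun t => ‖Dp g M (sp δ t)‖ ^ 2) c
  have h1 := mvD g M (σ := 1 / 2 + δ) (by linarith) (0 + c) (T + c)
  have h2 := (abs_le.mp h1).2
  have e0 : T + c - (0 + c) = T := by ring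
  rw [e0] at h2
  have h3 : ∑ n ∈ Icc 1 M, g n ^ 2 * (n:ℝ) ^ (-(2 * (1 / 2 + δ))) ≤ (N:ℝ) ^ (-δ) * (2 / δ) ^ (K ^ 2) := by
    have h4 : ∑ n ∈ Icc 1 M, g n ^ 2 * (n:ℝ) ^ (-(2 * (1 / 2 + δ))) =
        ∑ n ∈ (Icc 1 M).filter (fun n => N ≤ n), g n ^ 2 * (n:ℝ) ^ (-(2 * (1 / 2 + δ))) := by
      rw [sum_filter]
      refine sum_congr rfl fun n _ => ?_
      split_ifs with h
      · rfl
      · rw [h0 n (by omega)]; ring
    rw [h4]
    exact tail_sq hg hN hδ hδ1 fun n hn => (mem_filter.mp hn).2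
  have h5 : 4 * (M:ℝ) * (∑ n ∈ Icc 1 M, |g n|) ^ 2 ≤ 4 * M ^ (2 * K + 3) := by
    have h6 := l1_poly hg M
    calc 4 * (M:ℝ) * (∑ n ∈ Icc 1 M, |g n|) ^ 2 ≤ 4 * (M:ℝ) * ((M:ℝ) ^ (K + 1)) ^ 2 := by gcongr
      _ = _ := by ring
  have h6 := mul_le_mul_of_nonneg_left h3 hT
  rw [h00]
  unfold sp
  linarith

/-- the mean of the cost -/
lemma Rt_int {k : ℕ} {N : ℕ} (hN : 1 ≤ N) {E : Finset ℝ} (hE : ∀ x ∈ E, |x| ≤ k) {W e δ T : ℝ} (hW : 0 < W) (he : 0 < e)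
    (hδ : 0 < δ) (hδ1 : δ ≤ 1 / 16) (hT : 0 ≤ T) (c : ℝ) :
    ∫ t in (0:ℝ)..T, Rt N E W e δ (t + c) ≤
      #E * (#E * ((T * ((N:ℝ) ^ (-δ) * (2 / δ) ^ ((2 * k) ^ 2)) + 4 * (N:ℝ) ^ (2 * (4 * k + 3))) / e ^ 2)) +
      #E * ((T * (2 / δ) ^ ((2 * k) ^ 2) + 4 * (N:ℝ) ^ (2 * (4 * k + 3))) / W ^ 2) +
      (∫ t in (0:ℝ)..T, ‖riemannZeta (sp δ (t + c)) - Dy N 1 (sp δ (t + c))‖ ^ 2) / e ^ 2 := by
  have hN1 : (1:ℝ) ≤ N := by exact_mod_cast hN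
  have ec : ((k:ℝ) + k) = ((2 * k : ℕ) : ℝ) := by push_cast; ring
  have hkk : (k:ℝ) ≤ ((2 * k : ℕ) : ℝ) := by push_cast; linarith [(Nat.cast_nonneg k : (0:ℝ) ≤ k)]
  have eM : (((N * N : ℕ)) : ℝ) ^ (2 * (2 * k) + 3) = (N:ℝ) ^ (2 * (4 * k + 3)) := by
    rw [N_cast_sq, ← pow_mul]; congr 1; ring
  have hsm : (N:ℝ) ^ (2 * (2 * k) + 3) ≤ (N:ℝ) ^ (2 * (4 * k + 3)) := pow_le_pow_right₀ hN1 (by omega)
  have csh : ∀ f : ℝ → ℝ, Continuous f → Continuous fun t => f (t + c) := fun f hf =>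
    hf.comp (continuous_id.add continuous_const)
  have c2 : ∀ a, Continuous fun t => ‖Dy N a (sp δ (t + c))‖ ^ 2 := fun a =>
    csh (fun t => ‖Dy N a (sp δ t)‖ ^ 2) ((Dy_cont N a δ).norm.pow 2)
  have cG : ∀ a b, Continuous fun t => ‖Dy N (a + b) (sp δ (t + c)) - Dy N a (sp δ (t + c)) * Dy N b (sp δ (t + c))‖ ^ 2 :=
    fun a b => csh (fun t => ‖Dy N (a + b) (sp δ t) - Dy N a (sp δ t) * Dy N b (sp δ t)‖ ^ 2)
      ((((Dy_cont N (a + b) δ).sub ((Dy_cont N a δ).mul (Dy_cont N b δ))).norm).pow 2)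
  have cZ : Continuous fun t => ‖riemannZeta (sp δ (t + c)) - Dy N 1 (sp δ (t + c))‖ ^ 2 :=
    csh (fun t => ‖riemannZeta (sp δ t) - Dy N 1 (sp δ t)‖ ^ 2) ((((zeta_sp_cont hδ1).sub (Dy_cont N 1 δ)).norm).pow 2)
  have g1 : ∀ a ∈ E, ∀ b ∈ E, ∫ t in (0:ℝ)..T, ‖Dy N (a + b) (sp δ (t + c)) - Dy N a (sp δ (t + c)) * Dy N b (sp δ (t + c))‖ ^ 2 ≤
      T * ((N:ℝ) ^ (-δ) * (2 / δ) ^ ((2 * k) ^ 2)) + 4 * (N:ℝ) ^ (2 * (4 * k + 3)) := by
    intro a ha b hb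
    have h := ms_tail_sh (K := 2 * k) (g := gd N a b) (fun n => by
      have := gd_abs (N := N) (hE a ha) (hE b hb) n
      rwa [ec] at this) (N := N) (M := N * N) hN (fun n hn => gd_low hn.le a b) hδ (by linarith) hT c
    simp_rw [gd_eval hN] at h
    rw [eM] at h
    exact h
  have g2 : ∀ a ∈ E, ∫ t in (0:ℝ)..T, ‖Dy N a (sp δ (t + c))‖ ^ 2 ≤
      T * (2 / δ) ^ ((2 * k) ^ 2) + 4 * (N:ℝ) ^ (2 * (4 * k + 3)) := by
    intro a ha
    have h := ms_tail_sh (K := 2 * k) (g := fun n => OA.tr N (dA a) n) (fun n => by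
      refine (tr_abs_le (B := dA (|a|)) (fun n => dv_abs a n) n).trans ?_
      exact dv_mono (abs_nonneg _) ((hE a ha).trans hkk) n) (N := 1) (M := N) le_rfl (fun n hn => by
        have : n = 0 := by omega
        subst this; simp) hδ (by linarith) hT c
    rw [Nat.cast_one, Real.one_rpow, one_mul] at h
    unfold Dy
    linarith
  have s1 : ∫ t in (0:ℝ)..T, Rt N E W e δ (t + c) =
      (∑ a ∈ E, ∑ b ∈ E, (∫ t in (0:ℝ)..T, ‖Dy N (a + b) (sp δ (t + c)) - Dy N a (sp δ (t + c)) * Dy N b (sp δ (t + c))‖ ^ 2) / e ^ 2) +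
      (∑ a ∈ E, (∫ t in (0:ℝ)..T, ‖Dy N a (sp δ (t + c))‖ ^ 2) / W ^ 2) +
      (∫ t in (0:ℝ)..T, ‖riemannZeta (sp δ (t + c)) - Dy N 1 (sp δ (t + c))‖ ^ 2) / e ^ 2 := by
    unfold Rt
    have d1 : Continuous fun t => ∑ a ∈ E, ∑ b ∈ E,
        ‖Dy N (a + b) (sp δ (t + c)) - Dy N a (sp δ (t + c)) * Dy N b (sp δ (t + c))‖ ^ 2 / e ^ 2 :=
      continuous_finsetSum _ fun a _ => continuous_finsetSum _ fun b _ => (cG a b).div_const _
    have d2 : Continuous fun t => ∑ a ∈ E, ‖Dy N a (sp δ (t + c))‖ ^ 2 / W ^ 2 :=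
      continuous_finsetSum _ fun a _ => (c2 a).div_const _
    have d3 : Continuous fun t => ‖riemannZeta (sp δ (t + c)) - Dy N 1 (sp δ (t + c))‖ ^ 2 / e ^ 2 := cZ.div_const _
    have d12 : Continuous fun t => (∑ a ∈ E, ∑ b ∈ E,
        ‖Dy N (a + b) (sp δ (t + c)) - Dy N a (sp δ (t + c)) * Dy N b (sp δ (t + c))‖ ^ 2 / e ^ 2) +
        ∑ a ∈ E, ‖Dy N a (sp δ (t + c))‖ ^ 2 / W ^ 2 := d1.add d2
    rw [intervalIntegral.integral_add (d12.intervalIntegrable _ _) (d3.intervalIntegrable _ _),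
      intervalIntegral.integral_add (d1.intervalIntegrable _ _) (d2.intervalIntegrable _ _),
      intervalIntegral.integral_div]
    congr 1
    congr 1
    · rw [intervalIntegral.integral_finsetSum fun a _ => (continuous_finsetSum _ fun b _ =>
        (cG a b).div_const _).intervalIntegrable _ _]
      refine sum_congr rfl fun a _ => ?_
      rw [intervalIntegral.integral_finsetSum fun b _ => ((cG a b).div_const _).intervalIntegrable _ _]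
      refine sum_congr rfl fun b _ => ?_
      rw [intervalIntegral.integral_div]
    · rw [intervalIntegral.integral_finsetSum fun a _ => ((c2 a).div_const _).intervalIntegrable _ _]
      refine sum_congr rfl fun a _ => ?_
      rw [intervalIntegral.integral_div]
  rw [s1]
  have he2 : 0 < e ^ 2 := by positivity
  have hW2 : 0 < W ^ 2 := by positivity
  refine add_le_add (add_le_add ?_ ?_) le_rfl
  · calc _ ≤ ∑ a ∈ E, ∑ b ∈ E, (T * ((N:ℝ) ^ (-δ) * (2 / δ) ^ ((2 * k) ^ 2)) + 4 * (N:ℝ) ^ (2 * (4 * k + 3))) / e ^ 2 :=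
          sum_le_sum fun a ha => sum_le_sum fun b hb => by
            have := g1 a ha b hb
            gcongr
      _ = _ := by rw [sum_const, sum_const, nsmul_eq_mul, nsmul_eq_mul]
  · calc _ ≤ ∑ a ∈ E, (T * (2 / δ) ^ ((2 * k) ^ 2) + 4 * (N:ℝ) ^ (2 * (4 * k + 3))) / W ^ 2 :=
          sum_le_sum fun a ha => by
            have := g2 a ha
            gcongr
      _ = _ := by rw [sum_const, nsmul_eq_mul]

lemma Rt_cont (N : ℕ) (E : Finset ℝ) (W e : ℝ) {δ : ℝ} (hδ : δ ≤ 1 / 16) : Continuous fun t => Rt N E W e δ t := by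
  unfold Rt
  refine ((continuous_finsetSum _ fun a _ => continuous_finsetSum _ fun b _ =>
    ((((Dy_cont N (a + b) δ).sub ((Dy_cont N a δ).mul (Dy_cont N b δ))).norm).pow 2).div_const _).add
      (continuous_finsetSum _ fun a _ => ((Dy_cont N a δ).norm.pow 2).div_const _)).add
        (((((zeta_sp_cont hδ).sub (Dy_cont N 1 δ)).norm).pow 2).div_const _)

variable {ι : Type*} [Fintype ι] [DecidableEq ι]

/-- the integrated inequality -/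
theorem intR {N : ℕ} (hN : 1 ≤ N) {α a : ι → ℝ} {b : ℝ} (hαb : ∀ i, |α i| + 1 ≤ b) {J : ℕ} {V W e κ η Vb δ T : ℝ} (hT : 0 ≤ T)
    (hδ : δ ≤ 1 / 16) (hV : 1 ≤ V) (hW : 1 ≤ W)
    (he : 0 < e) (hWe : 8 * W ^ 2 * e ≤ 1) (hρ : rho b W e J ≤ 1 / 4) (hκ1 : κ ≤ 1) (hκρ : 4 * rho b W e J ≤ κ)
    (hκV : 8 * (V ^ 2)⁻¹ ≤ κ) (hη : 0 < η) (hVb : ∀ i, V ^ |2 * α i| ≤ Vb) :
    |(∫ t in (0:ℝ)..T, ∏ i, clip V ‖riemannZeta (sp δ (t + a i))‖ ^ (2 * α i)) -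
      ∫ t in (0:ℝ)..T, ∏ i, ‖Dy N (α i) (sp δ (t + a i))‖ ^ 2| ≤
      κ * (2 ^ Fintype.card ι * ∑ φ : ι → Fin 3, ∫ t in (0:ℝ)..T, ∏ i, ‖Dy N (![α i, b, -b] (φ i)) (sp δ (t + a i))‖ ^ 2) +
      (Vb ^ Fintype.card ι + 1 / η) * (∑ i, ∫ t in (0:ℝ)..T, Rt N (Ex b (α i) J) W e δ (t + a i)) +
      η * ∫ t in (0:ℝ)..T, (∏ i, ‖Dy N (α i) (sp δ (t + a i))‖ ^ 2) ^ 2 := by
  have hκ0 : 0 ≤ κ := le_trans (show (0:ℝ) ≤ 8 * (V ^ 2)⁻¹ by positivity) hκV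
  have csh : ∀ (c : ℝ) (f : ℝ → ℝ), Continuous f → Continuous fun t => f (t + c) := fun c f hf =>
    hf.comp (continuous_id.add continuous_const)
  have cD : ∀ y c : ℝ, Continuous fun t => ‖Dy N y (sp δ (t + c))‖ ^ 2 := fun y c =>
    csh c (fun t => ‖Dy N y (sp δ t)‖ ^ 2) ((Dy_cont N y δ).norm.pow 2)
  have cx : Continuous fun t => ∏ i, clip V ‖riemannZeta (sp δ (t + a i))‖ ^ (2 * α i) :=
    continuous_finsetProd _ fun i _ => csh (a i) (fun t => clip V ‖riemannZeta (sp δ t)‖ ^ (2 * α i)) (clip_cont hV hδ)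
  have cy : Continuous fun t => ∏ i, ‖Dy N (α i) (sp δ (t + a i))‖ ^ 2 := continuous_finsetProd _ fun i _ => cD _ _
  have cφ : ∀ φ : ι → Fin 3, Continuous fun t => ∏ i, ‖Dy N (![α i, b, -b] (φ i)) (sp δ (t + a i))‖ ^ 2 := fun φ =>
    continuous_finsetProd _ fun i _ => cD _ _
  have c1 : Continuous fun t => κ * (2 ^ Fintype.card ι * ∑ φ : ι → Fin 3, ∏ i, ‖Dy N (![α i, b, -b] (φ i)) (sp δ (t + a i))‖ ^ 2) :=
    continuous_const.mul (continuous_const.mul (continuous_finsetSum _ fun φ _ => cφ φ))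
  have cR : ∀ i, Continuous fun t => Rt N (Ex b (α i) J) W e δ (t + a i) := fun i =>
    csh (a i) (fun t => Rt N (Ex b (α i) J) W e δ t) (Rt_cont N _ W e hδ)
  have c2 : Continuous fun t => (Vb ^ Fintype.card ι + 1 / η) * (∑ i, Rt N (Ex b (α i) J) W e δ (t + a i)) :=
    continuous_const.mul (continuous_finsetSum _ fun i _ => cR i)
  have c3 : Continuous fun t => η * (∏ i, ‖Dy N (α i) (sp δ (t + a i))‖ ^ 2) ^ 2 := continuous_const.mul (cy.pow 2)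
  have c12 : Continuous fun t => κ * (2 ^ Fintype.card ι * ∑ φ : ι → Fin 3, ∏ i, ‖Dy N (![α i, b, -b] (φ i)) (sp δ (t + a i))‖ ^ 2) +
      (Vb ^ Fintype.card ι + 1 / η) * (∑ i, Rt N (Ex b (α i) J) W e δ (t + a i)) := c1.add c2
  rw [← intervalIntegral.integral_sub (cx.intervalIntegrable _ _) (cy.intervalIntegrable _ _)]
  have hpt : ∀ t : ℝ, |∏ i, clip V ‖riemannZeta (sp δ (t + a i))‖ ^ (2 * α i) - ∏ i, ‖Dy N (α i) (sp δ (t + a i))‖ ^ 2| ≤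
      κ * (2 ^ Fintype.card ι * ∑ φ : ι → Fin 3, ∏ i, ‖Dy N (![α i, b, -b] (φ i)) (sp δ (t + a i))‖ ^ 2) +
      (Vb ^ Fintype.card ι + 1 / η) * (∑ i, Rt N (Ex b (α i) J) W e δ (t + a i)) +
      η * (∏ i, ‖Dy N (α i) (sp δ (t + a i))‖ ^ 2) ^ 2 := by
    intro t
    have h1 := pt3 (fun i => clip V ‖riemannZeta (sp δ (t + a i))‖ ^ (2 * α i)) (fun i => ‖Dy N (α i) (sp δ (t + a i))‖ ^ 2)
      (fun i => ‖Dy N b (sp δ (t + a i))‖ ^ 2 + ‖Dy N (-b) (sp δ (t + a i))‖ ^ 2)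
      (fun i => Rt N (Ex b (α i) J) W e δ (t + a i)) (κ := κ) (η := η) (Vb := Vb) hκ0 hκ1 hη
      (fun i => Real.rpow_nonneg (clip_pos hV).le _) (fun i => by positivity) (fun i => by positivity)
      (fun i => Rt_nonneg _ _ _ _ _ _) (fun i => (clip_pow_le hV _).trans (hVb i)) (fun i hi => by
        refine (ptw_good hN (hαb i) hV hW he hWe hρ hi).trans ?_
        have q1 : (0:ℝ) ≤ ‖Dy N (α i) (sp δ (t + a i))‖ ^ 2 := by positivity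
        have q2 : (0:ℝ) ≤ ‖Dy N b (sp δ (t + a i))‖ ^ 2 + ‖Dy N (-b) (sp δ (t + a i))‖ ^ 2 := by positivity
        have q3 := mul_le_mul_of_nonneg_right hκρ q1
        have q4 := mul_le_mul_of_nonneg_right hκV q2
        refine (add_le_add q3 q4).trans (le_of_eq ?_)
        ring)
    have h2 := expand (fun i => ‖Dy N (α i) (sp δ (t + a i))‖ ^ 2) (fun i => ‖Dy N b (sp δ (t + a i))‖ ^ 2)
      (fun i => ‖Dy N (-b) (sp δ (t + a i))‖ ^ 2) (fun i => by positivity) (fun i => by positivity) (fun i => by positivity)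
    have h3 : ∀ (φ : ι → Fin 3) (i : ι), ![‖Dy N (α i) (sp δ (t + a i))‖ ^ 2, ‖Dy N b (sp δ (t + a i))‖ ^ 2,
        ‖Dy N (-b) (sp δ (t + a i))‖ ^ 2] (φ i) = ‖Dy N (![α i, b, -b] (φ i)) (sp δ (t + a i))‖ ^ 2 := by
      intro φ i
      generalize φ i = c
      fin_cases c <;> rfl
    simp_rw [h3] at h2
    have h4 := mul_le_mul_of_nonneg_left h2 hκ0
    linarith
  have h2 : |∫ t in (0:ℝ)..T, (∏ i, clip V ‖riemannZeta (sp δ (t + a i))‖ ^ (2 * α i) - ∏ i, ‖Dy N (α i) (sp δ (t + a i))‖ ^ 2)| ≤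
      ∫ t in (0:ℝ)..T, (κ * (2 ^ Fintype.card ι * ∑ φ : ι → Fin 3, ∏ i, ‖Dy N (![α i, b, -b] (φ i)) (sp δ (t + a i))‖ ^ 2) +
      (Vb ^ Fintype.card ι + 1 / η) * (∑ i, Rt N (Ex b (α i) J) W e δ (t + a i)) +
      η * (∏ i, ‖Dy N (α i) (sp δ (t + a i))‖ ^ 2) ^ 2) := by
    refine (intervalIntegral.abs_integral_le_integral_abs hT).trans ?_
    exact intervalIntegral.integral_mono_on hT ((cx.sub cy).abs.intervalIntegrable _ _)
      ((c12.add c3).intervalIntegrable _ _) fun t _ => hpt t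
  refine h2.trans (le_of_eq ?_)
  rw [intervalIntegral.integral_add (c12.intervalIntegrable _ _) (c3.intervalIntegrable _ _),
    intervalIntegral.integral_add (c1.intervalIntegrable _ _) (c2.intervalIntegrable _ _)]
  have s1 : ∫ t in (0:ℝ)..T, κ * (2 ^ Fintype.card ι * ∑ φ : ι → Fin 3, ∏ i, ‖Dy N (![α i, b, -b] (φ i)) (sp δ (t + a i))‖ ^ 2) =
      κ * (2 ^ Fintype.card ι * ∑ φ : ι → Fin 3, ∫ t in (0:ℝ)..T, ∏ i, ‖Dy N (![α i, b, -b] (φ i)) (sp δ (t + a i))‖ ^ 2) := by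
    rw [intervalIntegral.integral_const_mul, intervalIntegral.integral_const_mul,
      intervalIntegral.integral_finsetSum fun φ _ => (cφ φ).intervalIntegrable _ _]
  have s2 : ∫ t in (0:ℝ)..T, (Vb ^ Fintype.card ι + 1 / η) * (∑ i, Rt N (Ex b (α i) J) W e δ (t + a i)) =
      (Vb ^ Fintype.card ι + 1 / η) * (∑ i, ∫ t in (0:ℝ)..T, Rt N (Ex b (α i) J) W e δ (t + a i)) := by
    rw [intervalIntegral.integral_const_mul, intervalIntegral.integral_finsetSum fun i _ => (cR i).intervalIntegrable _ _]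
  have s3 : ∫ t in (0:ℝ)..T, η * (∏ i, ‖Dy N (α i) (sp δ (t + a i))‖ ^ 2) ^ 2 =
      η * ∫ t in (0:ℝ)..T, (∏ i, ‖Dy N (α i) (sp δ (t + a i))‖ ^ 2) ^ 2 := intervalIntegral.integral_const_mul _ _
  rw [s1, s2, s3]

end

end Pool.Agent.Y746.CS
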